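import Pool.Agent.Helper71.UN.DerGen
import Pool.Agent.Helper13.UN.M_SQR
import Pool.Agent.Helper15.UN.M_CVX
import Pool.Agent.Helper19.UN.M_LWB
import Pool.Agent.Helper21.UN.M_TTT
import Pool.Agent.Helper30.UN.M_EPP
import Pool.Agent.Helper31.UN.M_INV
import Pool.Agent.Helper31.UN.M_VXB
import Pool.Agent.Helper47.UN.M_VXA
import Pool.Agent.Helper58.UN.M_PRP
import Pool.Agent.Helper6.UN.M_FRO
import Pool.Agent.Helper6.UN.M_GAM
import Pool.Agent.Helper64.UN.M_DIR
import Pool.Agent.Helper7.UN.M_VM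
import Pool.Agent.Helper70.UN.M_TTA
import Pool.Agent.Helper9.UN.M_LWA
import Pool.Agent.Helper97.UN.M_VG
import Pool.Agent.Helper99.UN.M_ROT
import Pool.Agent.Helper54.TRI.M_FF
import Pool.Agent.Helper27.UN.M_EEE
import Pool.Agent.Helper73.UN.M_STP

/-!
# Project UN, part D: vertex models, assembled from the modules
-/

set_option autoImplicit false

noncomputable section

namespace Pool.Agent.Helper71.UN

/-- Part D from the last two modules. -/
theorem vxh_of (hSTP : StSTP) (hEEE : StEEE) : StVXH := by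
  have hFRO : StFRO := Pool.Agent.Helper6.UN.hFRO
  have hFF := Pool.Agent.Helper54.TRI.m_FF
  have hROT : StROT := Pool.Agent.Helper99.UN.hROT hFRO
  have hCVX : StCVX := Pool.Agent.Helper15.UN.hCVX hSTP
  have hLWA : StLWA := Pool.Agent.Helper9.UN.hLWA
  have hLWB : StLWB := Pool.Agent.Helper19.UN.hLWB hSTP
  have hEPP : StEPP := Pool.Agent.Helper30.UN.hEPP hSTP hFRO hROT
  have hSQR : StSQR := Pool.Agent.Helper13.UN.hSQR hSTP hCVX hFRO hROT
  have hTTA : StTTA := Pool.Agent.Helper70.UN.hTTA hFF hSTP hCVX hFRO hROT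
  have hTTT : StTTT := Pool.Agent.Helper21.UN.hTTT hLWA hSQR hTTA
  have hINV : StINV := Pool.Agent.Helper31.UN.hINV hSTP hCVX hFRO hROT hEPP
  have hDER : StDER := Der.hDER hLWA hLWB hEPP hINV hSQR hEEE hTTT
  have hVM : StVM := Pool.Agent.Helper7.UN.hVM hSTP (Pool.Agent.Helper58.UN.hPRP hLWA)
    Pool.Agent.Helper97.UN.hVG
  have hVXA : StVXA := Pool.Agent.Helper47.UN.hVXA hSTP hFRO hROT hEPP hDER hVM
    Pool.Agent.Helper64.UN.hDIR
  exact Pool.Agent.Helper31.UN.hVXB hFRO hROT Pool.Agent.Helper6.UN.hGAM hVXA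

/-- **VXH**: the vertex models of the hexagon network exist. -/
theorem hVXH : StVXH := by
  have hSTP : StSTP := Pool.Agent.Helper73.UN.hSTP
  have hFRO : StFRO := Pool.Agent.Helper6.UN.hFRO
  have hROT : StROT := Pool.Agent.Helper99.UN.hROT hFRO
  have hCVX : StCVX := Pool.Agent.Helper15.UN.hCVX hSTP
  have hEPP : StEPP := Pool.Agent.Helper30.UN.hEPP hSTP hFRO hROT
  exact vxh_of hSTP (Pool.Agent.Helper27.UN.hEEE Pool.Agent.Helper54.TRI.m_FF hSTP
    Pool.Agent.Helper9.UN.hLWA hCVX hFRO hROT hEPP)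

end Pool.Agent.Helper71.UN
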