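import Pool.Agent.Helper54.TRI.St2
import Pool.Agent.Helper56.FM.Fam

/-!
# Project UN (MP_d629b1_an, n = 2): the universal network for complex cubic numbers

Interface definitions.  Parts: (A) `StASM` assembly; (B) `StNET` general network theorem; (D) vertex
models (paths of matrix families); (C) geometry of the hexagon network; (E) number theory; (F) final.
-/

set_option autoImplicit false

open Set Filter Topology Matrix
open scoped ContDiff ComplexConjugate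

noncomputable section

namespace Pool.Agent.Helper71.UN

open Pool.Agent.Helper54.TRI (PatC)
open Pool.Agent.Helper56.FM (Gq)

/-! ## Elementary functions -/

/-- Signed distance of `z` to the line `ℝ d` (positive on the left of `d`). -/
def hh (d z : ℂ) : ℝ := (z * conj d).im / ‖d‖

/-- Coordinate of `z` along `d`. -/
def tt (d z : ℂ) : ℝ := (z * conj d).re / ‖d‖

/-- Determinant: positive if `q` is on the left of `p`. -/
def dt (p q : ℂ) : ℝ := (q * conj p).im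

/-- Smooth step (`0` for `t ≤ 0`, `1` for `1 ≤ t`). -/
def stp (t : ℝ) : ℝ := Real.smoothTransition t

/-- Smooth step (`0` for `h ≤ -1`, `1` for `1 ≤ h`, `sg (-h) = 1 - sg h`). -/
def sg (h : ℝ) : ℝ := stp ((h + 1) / 2)

/-- Profile of a wall: `0` for `h ≤ -1`, `1` for `1 ≤ h`, `prof (-h) = 1 - prof h`. -/
def prof (h : ℝ) : ℝ := stp (sg h)

/-! ## (A) Ring kernels -/

/-- A system of kernels: `R m x u` is the kernel of the projection with the label `m`. -/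
structure KerOK (Γ : ℤ → ℂ → Prop) (S : Finset ℤ) (R : ℤ → ℂ → ℂ → ℝ) (Λ : Finset ℂ) : Prop where
  smooth : ∀ m u, ContDiff ℝ ∞ (fun x => R m x u)
  supp : ∀ m x u, R m x u ≠ 0 → u ∈ Λ
  labs : ∀ m, m ∉ S → ∀ x u, R m x u = 0
  lat : ∀ m x u, R m x u ≠ 0 → Γ m u
  symm : ∀ m x u, R m (x + u) (-u) = R m x u
  idem : ∀ m x v, ∑ u ∈ Λ, R m x u * R m (x + u) (v - u) = R m x v
  sum : ∀ x v, ∑ m ∈ S, R m x v = if v = 0 then 1 else 0

/-- A ring kernel: label `0` for `‖x‖ < r₁`, label `1` for `r₂ < ‖x‖`. -/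
structure RingK (Γ : ℤ → ℂ → Prop) (S : Finset ℤ) (r₁ r₂ : ℝ) (R : ℤ → ℂ → ℂ → ℝ)
    (Λ : Finset ℂ) : Prop extends KerOK Γ S R Λ where
  inner : ∀ x, ‖x‖ < r₁ → ∀ m u, R m x u = if m = 0 ∧ u = 0 then 1 else 0
  outer : ∀ x, r₂ < ‖x‖ → ∀ m u, R m x u = if m = 1 ∧ u = 0 then 1 else 0

/-- **ASM** (assembly): a ring kernel gives a planar kernel pattern. -/
def StASM : Prop := ∀ (β : ℂ) (Γ : ℤ → ℂ → Prop) (S : Finset ℤ) (r₁ r₂ : ℝ)
  (R : ℤ → ℂ → ℂ → ℝ) (Λ : Finset ℂ), 1 < ‖β‖ → 0 < r₁ → r₂ < ‖β‖ * r₁ →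
  (∀ (l k : ℤ) (u : ℂ), Γ l u → Γ (l + k) (β ^ k * u)) → Γ 0 0 → (0 : ℤ) ∈ S → (1 : ℤ) ∈ S →
  RingK Γ S r₁ r₂ R Λ → ∃ K Λ' ε R', PatC β (Γ 0) K Λ' ε R'

/-! ## (B) Networks -/

/-- A planar network: classes `κ` of vertices, each with `n` copies `pos c a`; rays `j : J` of the
class `cls j` which exchange the labels of the copies `ra j`, `rb j`; the walls of the ray `j` are the
segments from `pos (cls j) (ra j)` and `pos (cls j) (rb j)` with the displacement `d j`; `op j` is the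
same pair of walls seen from the other end.  On the left of the wall of the copy `ra j` the label is
`lp j`, on the right it is `lq j`; for the copy `rb j` the labels are exchanged.  `lam` is the label
function, `nu c a` the label near the vertex `pos c a`, `e j` a sign. -/
structure Nw (κ J : Type) (n : ℕ) where
  pos : κ → Fin n → ℂ
  cls : J → κ
  ra : J → Fin n
  rb : J → Fin n
  d : J → ℂ
  op : J → J
  lp : J → ℤ
  lq : J → ℤ
  e : J → ℝ
  lam : ℂ → ℤ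
  nu : κ → Fin n → ℂ → ℤ

namespace Nw

variable {κ J : Type} {n : ℕ} (N : Nw κ J n)

/-- Starting point of the wall of the ray `j` (`c = false`: copy `ra j`; `c = true`: copy `rb j`). -/
def sp (j : J) (c : Bool) : ℂ := N.pos (N.cls j) (if c then N.rb j else N.ra j)

/-- Left label. -/
def ll (j : J) (c : Bool) : ℤ := if c then N.lq j else N.lp j

/-- Right label. -/
def rl (j : J) (c : Bool) : ℤ := if c then N.lp j else N.lq j

end Nw

/-- The geometric conditions of a network. -/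
structure NwOK {κ J : Type} {n : ℕ} (N : Nw κ J n) (S : Finset ℤ) (r₁ r₂ : ℝ) : Prop where
  d_ne : ∀ j, N.d j ≠ 0
  rab : ∀ j, N.ra j ≠ N.rb j
  lpq : ∀ j, N.lp j ≠ N.lq j
  sgn : ∀ j, N.e j * N.e j = 1
  opop : ∀ j, N.op (N.op j) = j
  opd : ∀ j, N.d (N.op j) = - N.d j
  opsp : ∀ j c, N.sp (N.op j) c = N.sp j c + N.d j
  oplp : ∀ j, N.lp (N.op j) = N.lq j
  opsgn : ∀ j, N.e (N.op j) = - N.e j
  /-- the vertices are different points -/
  inj : ∀ c a c' a', N.pos c a = N.pos c' a' → c = c' ∧ a = a'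
  /-- no vertex is in an open wall -/
  avoid : ∀ j b c a (t : ℝ), 0 < t → t < 1 → N.sp j b + t * N.d j ≠ N.pos c a
  /-- different open walls are disjoint -/
  disj : ∀ j b j' b' (t t' : ℝ), 0 < t → t < 1 → 0 < t' → t' < 1 →
    N.sp j b + t * N.d j = N.sp j' b' + t' * N.d j' → b' = b ∧ (j' = j ∨ j' = N.op j)
  /-- the labels on the two sides of a wall -/
  wall : ∀ j b (t : ℝ), 0 < t → t < 1 → ∀ᶠ x in 𝓝 (N.sp j b + t * N.d j),
    (0 < hh (N.d j) (x - N.sp j b) → N.lam x = N.ll j b) ∧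
    (hh (N.d j) (x - N.sp j b) < 0 → N.lam x = N.rl j b)
  /-- the labels near a vertex, off the rays which start there -/
  vert : ∀ c a, ∀ᶠ z in 𝓝 (0 : ℂ), (∀ j, N.cls j = c → (N.ra j = a ∨ N.rb j = a) →
    ¬ (hh (N.d j) z = 0 ∧ 0 ≤ tt (N.d j) z)) → N.lam (N.pos c a + z) = N.nu c a z
  /-- the label is locally constant off the closed walls -/
  off : ∀ x, (∀ j b, x ∉ segment ℝ (N.sp j b) (N.sp j b + N.d j)) → ∀ᶠ y in 𝓝 x, N.lam y = N.lam x
  labS : ∀ x, N.lam x ∈ S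
  inn : ∀ x, ‖x‖ < r₁ → N.lam x = 0
  out : ∀ x, r₂ < ‖x‖ → N.lam x = 1
  walls : ∀ j b, ∀ x ∈ segment ℝ (N.sp j b) (N.sp j b + N.d j), r₁ < ‖x‖ ∧ ‖x‖ < r₂
  verts : ∀ c a, r₁ < ‖N.pos c a‖ ∧ ‖N.pos c a‖ < r₂

/-- Entry of the wall matrix: `p`, `q` are the labels of `ra` on the left and on the right, `θ` is the angle
(`0` on the right, `π/2` on the left), `x`, `y` say which copy (`false`: `ra`, `true`: `rb`). -/
def wm (p q : ℤ) (e θ : ℝ) (l : ℤ) (x y : Bool) : ℝ :=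
  if l = q then
    (if x = y then (if x then Real.sin θ ^ 2 else Real.cos θ ^ 2) else e * (Real.cos θ * Real.sin θ))
  else if l = p then
    (if x = y then (if x then Real.cos θ ^ 2 else Real.sin θ ^ 2) else - (e * (Real.cos θ * Real.sin θ)))
  else 0

/-- A vertex model for the class `c`: a smooth family of matrices on the plane (in units of the width of the
walls), which outside of the disc of radius `R₀` is given by the walls and the labels `nu`. -/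
structure VxM {κ J : Type} {n : ℕ} (N : Nw κ J n) (Γ : ℤ → ℂ → Prop) (S : Finset ℤ) (c : κ)
    (M : ℂ → ℤ → Matrix (Fin n) (Fin n) ℝ) (R₀ : ℝ) : Prop where
  pos : 0 < R₀
  smooth : ∀ l a b, ContDiff ℝ ∞ (fun z => M z l a b)
  symm : ∀ z l, (M z l)ᵀ = M z l
  idem : ∀ z l, M z l * M z l = M z l
  zero : ∀ z l, l ∉ S → M z l = 0
  sum : ∀ z, ∑ l ∈ S, M z l = 1
  loc : ∀ z l a b, M z l a b ≠ 0 → Γ l (N.pos c b - N.pos c a)
  /-- rows of the two copies near a ray -/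
  ray : ∀ j, N.cls j = c → ∀ z, R₀ ≤ ‖z‖ → 0 < tt (N.d j) z → |hh (N.d j) z| ≤ 1 →
    ∀ (l : ℤ) (x : Bool) (b : Fin n), M z l (if x then N.rb j else N.ra j) b =
      if b = N.ra j then wm (N.lp j) (N.lq j) (N.e j) (Real.pi / 2 * prof (hh (N.d j) z)) l x false
      else if b = N.rb j then wm (N.lp j) (N.lq j) (N.e j) (Real.pi / 2 * prof (hh (N.d j) z)) l x true
      else 0
  /-- rows off the rays of the copy -/
  pure : ∀ a z, R₀ ≤ ‖z‖ → (∀ j, N.cls j = c → (N.ra j = a ∨ N.rb j = a) →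
    ¬ (0 < tt (N.d j) z ∧ |hh (N.d j) z| ≤ 1)) →
    ∀ l b, M z l a b = if l = N.nu c a z ∧ b = a then 1 else 0

/-- **NET** (network theorem).  Near a vertex the kernel is given by the vertex model `M c (z / ε)`, near a wall by the
wall matrix with the angle `π/2 * prof (hh / ε)`, elsewhere by the label `lam`, for small `ε`. -/
def StNET : Prop := ∀ (κ J : Type) [Fintype κ] [Fintype J] (n : ℕ) (N : Nw κ J n)
  (Γ : ℤ → ℂ → Prop) (S : Finset ℤ) (r₁ r₂ : ℝ) (M : κ → ℂ → ℤ → Matrix (Fin n) (Fin n) ℝ)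
  (R₀ : κ → ℝ), NwOK N S r₁ r₂ → (∀ c, VxM N Γ S c (M c) (R₀ c)) → (∀ l, Γ l 0) →
  (∀ c a z (r : ℝ), 0 < r → N.nu c a ((r : ℂ) * z) = N.nu c a z) →
  ∃ R Λ, RingK Γ S r₁ r₂ R Λ

/-! ## The six copies and the seven rays of the hexagon network

Copies `0 = L` (at `v₀`), `1 = K` (at `v₂`), `2 = I` (at `-a`), `3 = O` (at `-a'`), `4 = T` (at `τ`),
`5 = H`.  Labels `0, 1, 2 = k, 3 = l`. -/

/-- Copies allowed for a label. -/
def al6 (l : Fin 4) (a : Fin 6) : Bool :=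
  (![![true, true, true, false, false, false],
     ![true, true, false, true, false, true],
     ![true, false, true, true, true, true],
     ![false, true, true, true, true, false]] : Fin 4 → Fin 6 → Bool) l a

/-- The seven states in counterclockwise order, `st6 0` is the state before the ray `0`. -/
def st6 (i : Fin 7) : Fin 6 → Fin 4 :=
  (![![1, 0, 2, 1, 3, 2], ![1, 0, 3, 1, 2, 2], ![1, 3, 0, 1, 2, 2], ![1, 1, 0, 3, 2, 2],
     ![1, 1, 0, 2, 3, 2], ![2, 1, 0, 1, 3, 2], ![0, 1, 2, 1, 3, 2]] : Fin 7 → Fin 6 → Fin 4) i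

/-- First copy of the ray `j` (the ray between `st6 j` and `st6 (j + 1)`). -/
def ra6 (j : Fin 7) : Fin 6 := (![2, 1, 1, 3, 0, 0, 0] : Fin 7 → Fin 6) j

/-- Second copy of the ray `j`. -/
def rb6 (j : Fin 7) : Fin 6 := (![4, 2, 3, 4, 3, 2, 1] : Fin 7 → Fin 6) j

/-- The vertices of a regular hexagon. -/
def om : ℂ := ⟨-1 / 2, Real.sqrt 3 / 2⟩

/-- Output of the number theory part (E), input of the geometry part (C).  `v₀`, `v₁ = v₀ + v₂`,
`v₂ = om v₀` are vertices of a regular hexagon; `a`, `a'` are near `v₁`; `Γ = Gq β`. -/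
structure Cfg (Γ : ℤ → ℂ → Prop) (η : ℝ) (k l : ℤ) (v₀ a a' τ : ℂ) (s θ : ℝ) : Prop where
  k0 : k ≠ 0
  k1 : k ≠ 1
  l0 : l ≠ 0
  l1 : l ≠ 1
  kl : k ≠ l
  nz : v₀ ≠ 0
  ha : ‖a - (v₀ + om * v₀)‖ ≤ η * ‖v₀‖
  ha' : ‖a' - (v₀ + om * v₀)‖ ≤ η * ‖v₀‖
  /-- `a' - a` is outward, between the directions `a - v₂` and `a - v₀` -/
  h1 : 0 < dt (a - om * v₀) (a' - a)
  h2 : 0 < dt (a' - a) (a - v₀)
  h3 : 0 < dt (v₀ + om * v₀) (a' - a)
  s0 : 0 < s
  s1 : s < 1 / 2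
  θ0 : 0 < θ
  θ1 : θ < 1
  hτ : τ = om * v₀ + s * ((a - om * v₀) + θ * (a' - a))
  g1 : Γ 0 (om * v₀ - v₀)
  g2 : Γ 1 (om * v₀ - v₀)
  g3 : Γ 0 (v₀ + a)
  g4 : Γ k (v₀ + a)
  g5 : Γ 0 (om * v₀ + a)
  g6 : Γ l (om * v₀ + a)
  g7 : Γ 1 (v₀ + a')
  g8 : Γ k (v₀ + a')
  g9 : Γ 1 (om * v₀ + a')
  g10 : Γ l (om * v₀ + a')
  g11 : Γ k (τ + a)
  g12 : Γ l (τ + a)

/-- Signs of the rays. -/
def e6 (j : Fin 7) : ℝ := (![1, 1, 1, 1, -1, -1, 1] : Fin 7 → ℝ) j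

/-- First index in `i, ..., i + m` such that `z` is not on the left of `d i` (`i + m` if there is none). -/
def fstA (d : ℕ → ℂ) : ℕ → ℕ → ℂ → ℕ
  | i, 0, _ => i
  | i, m + 1, z => if hh (d i) z ≤ 0 then i else fstA d (i + 1) m z

/-- First index in `i, ..., i + m` such that `z` is not on the right of `d i`. -/
def fstB (d : ℕ → ℂ) : ℕ → ℕ → ℂ → ℕ
  | i, 0, _ => i
  | i, m + 1, z => if 0 ≤ hh (d i) z then i else fstB d (i + 1) m z

/-- Positions of the six copies. -/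
def pos6 (v₀ a a' τ h : ℂ) (i : Fin 6) : ℂ := (![v₀, om * v₀, -a, -a', τ, h] : Fin 6 → ℂ) i

/-- Displacements of the seven rays. -/
def d6 (v₀ a a' τ h : ℂ) (j : Fin 7) : ℂ :=
  -(pos6 v₀ a a' τ h (ra6 j) + pos6 v₀ a a' τ h (rb6 j))

/-- The rays on the side of `v₀`, in counterclockwise order: `0, 1, 2, 3`. -/
def dA6 (v₀ a a' τ h : ℂ) (i : ℕ) : ℂ := d6 v₀ a a' τ h (Fin.ofNat 7 i)

/-- The other rays, in clockwise order: `6, 5, 4`. -/
def dB6 (v₀ a a' τ h : ℂ) (i : ℕ) : ℂ := d6 v₀ a a' τ h (Fin.ofNat 7 (6 - i))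

/-- States on the side of `v₀`: `st6 0, ..., st6 4`. -/
def sA6 (i : ℕ) : Fin 6 → Fin 4 := st6 (Fin.ofNat 7 i)

/-- States on the other side, clockwise: `st6 0, st6 6, st6 5, st6 4`. -/
def sB6 (i : ℕ) : Fin 6 → Fin 4 := st6 (Fin.ofNat 7 (7 - i))

/-- The state at `z`. -/
def stz6 (v₀ a a' τ h z : ℂ) : Fin 6 → Fin 4 :=
  if 0 < (z * conj v₀).re then sA6 (fstA (dA6 v₀ a a' τ h) 0 4 z)
  else sB6 (fstB (dB6 v₀ a a' τ h) 0 3 z)

/-- The labels. -/
def lb (k l : ℤ) (i : Fin 4) : ℤ := (![0, 1, k, l] : Fin 4 → ℤ) i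

/-- The hexagon network; the class `true` has the vertices `pos6`, the class `false` their negatives. -/
def hexN (k l : ℤ) (v₀ a a' τ h : ℂ) (lam : ℂ → ℤ) : Nw Bool (Bool × Fin 7) 6 where
  pos := fun c i => if c then pos6 v₀ a a' τ h i else - pos6 v₀ a a' τ h i
  cls := fun j => j.1
  ra := fun j => if j.1 then ra6 j.2 else rb6 j.2
  rb := fun j => if j.1 then rb6 j.2 else ra6 j.2
  d := fun j => if j.1 then d6 v₀ a a' τ h j.2 else - d6 v₀ a a' τ h j.2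
  op := fun j => (!j.1, j.2)
  lp := fun j => if j.1 then lb k l (st6 (j.2 + 1) (ra6 j.2)) else lb k l (st6 j.2 (ra6 j.2))
  lq := fun j => if j.1 then lb k l (st6 j.2 (ra6 j.2)) else lb k l (st6 (j.2 + 1) (ra6 j.2))
  e := fun j => if j.1 then e6 j.2 else - e6 j.2
  lam := lam
  nu := fun c i z => if c then lb k l (stz6 v₀ a a' τ h z i) else lb k l (stz6 v₀ a a' τ h (-z) i)

/-- **HEX** (geometry part (C)). -/
def StHEX : Prop := ∀ κ : ℝ, 1 < κ → 4 / 3 < κ ^ 2 → ∃ η : ℝ, 0 < η ∧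
  ∀ (Γ : ℤ → ℂ → Prop) (k l : ℤ) (v₀ a a' τ : ℂ) (s θ : ℝ), Cfg Γ η k l v₀ a a' τ s θ →
  ∃ (σ : ℚ) (lam : ℂ → ℤ) (r₁ r₂ : ℝ), 0 < σ ∧ σ < 1 ∧ 0 < r₁ ∧ r₂ < κ * r₁ ∧
    NwOK (hexN k l v₀ a a' τ (-a' + (σ : ℂ) * (v₀ + a')) lam) {0, 1, k, l} r₁ r₂

/-- **VXH** (vertex models of the hexagon network, part (D)); `Γ l` is closed under sums, negatives and
rational multiples. -/
def StVXH : Prop := ∀ (Γ : ℤ → ℂ → Prop) (η : ℝ) (k l : ℤ) (v₀ a a' τ : ℂ) (s θ : ℝ) (σ : ℚ)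
  (lam : ℂ → ℤ), η ≤ 1 / 100 → Cfg Γ η k l v₀ a a' τ s θ →
  (∀ l u u', Γ l u → Γ l u' → Γ l (u + u')) → (∀ l u (x : ℚ), Γ l u → Γ l ((x : ℂ) * u)) →
  ∀ c, ∃ M R₀, VxM (hexN k l v₀ a a' τ (-a' + (σ : ℂ) * (v₀ + a')) lam) Γ {0, 1, k, l} c M R₀

/-- **NT** (number theory part (E)): configurations with arbitrarily small `η` exist.  `β` non-real, cubic, no power of
`β` rational. -/
def StNT : Prop := ∀ (β : ℂ) (p q r : ℚ), β.im ≠ 0 →
  β ^ 3 + (p : ℂ) * β ^ 2 + (q : ℂ) * β + (r : ℂ) = 0 →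
  (∀ x : ℚ, x ^ 3 + p * x ^ 2 + q * x + r ≠ 0) → (∀ n : ℕ, n ≠ 0 → ∀ x : ℚ, β ^ n ≠ (x : ℂ)) →
  ∀ η : ℝ, 0 < η → ∃ (k l : ℤ) (v₀ a a' τ : ℂ) (s θ : ℝ), Cfg (Gq β) η k l v₀ a a' τ s θ

end Pool.Agent.Helper71.UN
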