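import Pool.Agent.Helper71.UN.DerLib

/-!
# Project UN, module DER: filling of the vertex loop (generated: 17 vertices, 29 edges, 13 cells)
-/

set_option autoImplicit false
set_option linter.unusedSectionVars false

open Set Filter Topology Matrix
open scoped ContDiff ComplexConjugate

noncomputable section

namespace Pool.Agent.Helper71.UN

namespace Der

/-- State. -/
def q0 : Fin 6 → Fin 4 := ![1, 3, 0, 1, 2, 2]

/-- State. -/
def q1 : Fin 6 → Fin 4 := ![1, 1, 0, 3, 2, 2]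

/-- State. -/
def q2 : Fin 6 → Fin 4 := ![1, 1, 0, 2, 3, 2]

/-- State. -/
def q3 : Fin 6 → Fin 4 := ![2, 1, 0, 1, 3, 2]

/-- State. -/
def q4 : Fin 6 → Fin 4 := ![2, 1, 0, 2, 3, 1]

/-- State. -/
def q5 : Fin 6 → Fin 4 := ![0, 1, 2, 2, 3, 1]

/-- State. -/
def q6 : Fin 6 → Fin 4 := ![2, 1, 0, 3, 2, 1]

/-- State. -/
def q7 : Fin 6 → Fin 4 := ![0, 1, 2, 3, 2, 1]

/-- State. -/
def q8 : Fin 6 → Fin 4 := ![2, 3, 0, 1, 2, 1]

/-- State. -/
def q9 : Fin 6 → Fin 4 := ![0, 3, 2, 1, 2, 1]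

/-- State. -/
def q10 : Fin 6 → Fin 4 := ![1, 3, 0, 2, 2, 1]

/-- State. -/
def q11 : Fin 6 → Fin 4 := ![1, 0, 3, 2, 2, 1]

/-- State. -/
def q12 : Fin 6 → Fin 4 := ![0, 1, 3, 1, 2, 2]

/-- State. -/
def q13 : Fin 6 → Fin 4 := ![1, 0, 3, 1, 2, 2]

/-- State. -/
def q14 : Fin 6 → Fin 4 := ![0, 1, 2, 1, 3, 2]

/-- State. -/
def q15 : Fin 6 → Fin 4 := ![1, 0, 2, 1, 3, 2]

/-- State. -/
def q16 : Fin 6 → Fin 4 := ![0, 1, 3, 2, 2, 1]

/-- Edge. -/
def E0_1 : ℝ → Fm 6 := ep q0 1 3 (1 : ℝ)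

/-- Edge. -/
def E1_0 : ℝ → Fm 6 := ep q1 1 3 (-1 : ℝ)

/-- Edge. -/
def E1_2 : ℝ → Fm 6 := ep q1 3 4 (1 : ℝ)

/-- Edge. -/
def E2_1 : ℝ → Fm 6 := ep q2 3 4 (-1 : ℝ)

/-- Edge. -/
def E2_3 : ℝ → Fm 6 := ep q2 0 3 (-1 : ℝ)

/-- Edge. -/
def E3_2 : ℝ → Fm 6 := ep q3 0 3 (1 : ℝ)

/-- Edge. -/
def E3_14 : ℝ → Fm 6 := ep q3 0 2 (-1 : ℝ)

/-- Edge. -/
def E14_3 : ℝ → Fm 6 := ep q14 0 2 (1 : ℝ)

/-- Edge. -/
def E3_4 : ℝ → Fm 6 := ep q3 3 5 (1 : ℝ)

/-- Edge. -/
def E4_3 : ℝ → Fm 6 := ep q4 3 5 (-1 : ℝ)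

/-- Edge. -/
def E4_5 : ℝ → Fm 6 := ep q4 0 2 (-1 : ℝ)

/-- Edge. -/
def E5_4 : ℝ → Fm 6 := ep q5 0 2 (1 : ℝ)

/-- Edge. -/
def E5_14 : ℝ → Fm 6 := ep q5 3 5 (-1 : ℝ)

/-- Edge. -/
def E14_5 : ℝ → Fm 6 := ep q14 3 5 (1 : ℝ)

/-- Edge. -/
def E4_2 : ℝ → Fm 6 := ep q4 0 5 (1 : ℝ)

/-- Edge. -/
def E2_4 : ℝ → Fm 6 := ep q2 0 5 (-1 : ℝ)

/-- Edge. -/
def E4_6 : ℝ → Fm 6 := ep q4 3 4 (-1 : ℝ)

/-- Edge. -/
def E6_4 : ℝ → Fm 6 := ep q6 3 4 (1 : ℝ)

/-- Edge. -/
def E6_1 : ℝ → Fm 6 := ep q6 0 5 (1 : ℝ)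

/-- Edge. -/
def E1_6 : ℝ → Fm 6 := ep q1 0 5 (-1 : ℝ)

/-- Edge. -/
def E5_7 : ℝ → Fm 6 := ep q5 3 4 (-1 : ℝ)

/-- Edge. -/
def E7_5 : ℝ → Fm 6 := ep q7 3 4 (1 : ℝ)

/-- Edge. -/
def E7_6 : ℝ → Fm 6 := ep q7 0 2 (1 : ℝ)

/-- Edge. -/
def E6_7 : ℝ → Fm 6 := ep q6 0 2 (-1 : ℝ)

/-- Edge. -/
def E6_8 : ℝ → Fm 6 := ep q6 1 3 (-1 : ℝ)

/-- Edge. -/
def E8_6 : ℝ → Fm 6 := ep q8 1 3 (1 : ℝ)

/-- Edge. -/
def E8_0 : ℝ → Fm 6 := ep q8 0 5 (1 : ℝ)

/-- Edge. -/
def E0_8 : ℝ → Fm 6 := ep q0 0 5 (-1 : ℝ)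

/-- Edge. -/
def E7_9 : ℝ → Fm 6 := ep q7 1 3 (-1 : ℝ)

/-- Edge. -/
def E9_7 : ℝ → Fm 6 := ep q9 1 3 (1 : ℝ)

/-- Edge. -/
def E9_8 : ℝ → Fm 6 := ep q9 0 2 (1 : ℝ)

/-- Edge. -/
def E8_9 : ℝ → Fm 6 := ep q8 0 2 (-1 : ℝ)

/-- Edge. -/
def E8_10 : ℝ → Fm 6 := ep q8 0 3 (-1 : ℝ)

/-- Edge. -/
def E10_8 : ℝ → Fm 6 := ep q10 0 3 (1 : ℝ)

/-- Edge. -/
def E10_0 : ℝ → Fm 6 := ep q10 3 5 (-1 : ℝ)

/-- Edge. -/
def E0_10 : ℝ → Fm 6 := ep q0 3 5 (1 : ℝ)

/-- Edge. -/
def E16_11 : ℝ → Fm 6 := ep q16 0 1 (1 : ℝ)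

/-- Edge. -/
def E11_16 : ℝ → Fm 6 := ep q11 0 1 (-1 : ℝ)

/-- Edge. -/
def E11_10 : ℝ → Fm 6 := ep q11 1 2 (1 : ℝ)

/-- Edge. -/
def E10_11 : ℝ → Fm 6 := ep q10 1 2 (-1 : ℝ)

/-- Edge. -/
def E13_0 : ℝ → Fm 6 := ep q13 1 2 (1 : ℝ)

/-- Edge. -/
def E0_13 : ℝ → Fm 6 := ep q0 1 2 (-1 : ℝ)

/-- Edge. -/
def E12_13 : ℝ → Fm 6 := ep q12 0 1 (1 : ℝ)

/-- Edge. -/
def E13_12 : ℝ → Fm 6 := ep q13 0 1 (-1 : ℝ)

/-- Edge. -/
def E13_11 : ℝ → Fm 6 := ep q13 3 5 (1 : ℝ)

/-- Edge. -/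
def E11_13 : ℝ → Fm 6 := ep q11 3 5 (-1 : ℝ)

/-- Edge. -/
def E12_14 : ℝ → Fm 6 := ep q12 2 4 (-1 : ℝ)

/-- Edge. -/
def E14_12 : ℝ → Fm 6 := ep q14 2 4 (1 : ℝ)

/-- Edge. -/
def E14_15 : ℝ → Fm 6 := ep q14 0 1 (1 : ℝ)

/-- Edge. -/
def E15_14 : ℝ → Fm 6 := ep q15 0 1 (-1 : ℝ)

/-- Edge. -/
def E15_13 : ℝ → Fm 6 := ep q15 2 4 (1 : ℝ)

/-- Edge. -/
def E13_15 : ℝ → Fm 6 := ep q13 2 4 (-1 : ℝ)

/-- Edge. -/
def E16_7 : ℝ → Fm 6 := ep q16 2 3 (-1 : ℝ)

/-- Edge. -/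
def E7_16 : ℝ → Fm 6 := ep q7 2 3 (1 : ℝ)

/-- Edge. -/
def E12_16 : ℝ → Fm 6 := ep q12 3 5 (1 : ℝ)

/-- Edge. -/
def E16_12 : ℝ → Fm 6 := ep q16 3 5 (-1 : ℝ)

/-- Edge. -/
def E16_5 : ℝ → Fm 6 := ep q16 2 4 (-1 : ℝ)

/-- Edge. -/
def E5_16 : ℝ → Fm 6 := ep q5 2 4 (1 : ℝ)

/-- Path. -/
def P15 : ℝ → Fm 6 := fun _ => pu q15

/-- Path. -/
def P13 : ℝ → Fm 6 := mu (pu q15) P15 E15_13

/-- Path. -/
def P14 : ℝ → Fm 6 := mu (pu q15) P15 E15_14

/-- Path. -/
def P0 : ℝ → Fm 6 := mu (pu q13) P13 E13_0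

/-- Path. -/
def P12 : ℝ → Fm 6 := mu (pu q13) P13 E13_12

/-- Path. -/
def P3 : ℝ → Fm 6 := mu (pu q14) P14 E14_3

/-- Path. -/
def P1 : ℝ → Fm 6 := mu (pu q0) P0 E0_1

/-- Path. -/
def P4 : ℝ → Fm 6 := mu (pu q3) P3 E3_4

/-- Path. -/
def P2 : ℝ → Fm 6 := mu (pu q1) P1 E1_2

/-- Path. -/
def P5 : ℝ → Fm 6 := mu (pu q4) P4 E4_5

/-- Path. -/
def P6 : ℝ → Fm 6 := mu (pu q4) P4 E4_6

/-- Path. -/
def P7 : ℝ → Fm 6 := mu (pu q5) P5 E5_7

/-- Path. -/
def P8 : ℝ → Fm 6 := mu (pu q6) P6 E6_8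

/-- Path. -/
def P9 : ℝ → Fm 6 := mu (pu q7) P7 E7_9

/-- Path. -/
def P10 : ℝ → Fm 6 := mu (pu q8) P8 E8_10

/-- Path. -/
def P11 : ℝ → Fm 6 := mu (pu q10) P10 E10_11

/-- Path. -/
def P16 : ℝ → Fm 6 := mu (pu q11) P11 E11_16

theorem okq (hE : StEPP) {u : Fin 6 → Fin 4} {a b : Fin 6} (h : Adm al6 u a b) :
    OKm al6 (pu u) := (hE 6 al6 u a b 1 h (by norm_num)).2.2.2.2

theorem const_isP {x : Fm 6} (h : OKm al6 x) : IsP al6 x x (fun _ => x) where
  smooth := fun _ _ _ => contDiff_const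
  ok := fun _ => h
  left := fun _ _ => rfl
  right := fun _ _ => rfl

section

variable (hA : StLWA) (hB : StLWB) (hE : StEPP) (hI : StINV) (hS : StSQR) (hT : StEEE) (hQ : StTTT)

include hA hB hE hI hS hT hQ

omit hA hB hI hS hT hQ in
theorem iE0_1 : IsP al6 (pu q0) (pu q1) E0_1 :=
  ep_isP hE (by decide) (adm_of (al := al6) (u := q0) (a := 1) (b := 3) (by decide) (by decide) (by decide) (by decide)) (by norm_num)

omit hA hB hI hS hT hQ in
theorem iE1_0 : IsP al6 (pu q1) (pu q0) E1_0 :=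
  ep_isP hE (by decide) (adm_of (al := al6) (u := q1) (a := 1) (b := 3) (by decide) (by decide) (by decide) (by decide)) (by norm_num)

omit hA hB hI hS hT hQ in
theorem iE1_2 : IsP al6 (pu q1) (pu q2) E1_2 :=
  ep_isP hE (by decide) (adm_of (al := al6) (u := q1) (a := 3) (b := 4) (by decide) (by decide) (by decide) (by decide)) (by norm_num)

omit hA hB hI hS hT hQ in
theorem iE2_1 : IsP al6 (pu q2) (pu q1) E2_1 :=
  ep_isP hE (by decide) (adm_of (al := al6) (u := q2) (a := 3) (b := 4) (by decide) (by decide) (by decide) (by decide)) (by norm_num)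

omit hA hB hI hS hT hQ in
theorem iE2_3 : IsP al6 (pu q2) (pu q3) E2_3 :=
  ep_isP hE (by decide) (adm_of (al := al6) (u := q2) (a := 0) (b := 3) (by decide) (by decide) (by decide) (by decide)) (by norm_num)

omit hA hB hI hS hT hQ in
theorem iE3_2 : IsP al6 (pu q3) (pu q2) E3_2 :=
  ep_isP hE (by decide) (adm_of (al := al6) (u := q3) (a := 0) (b := 3) (by decide) (by decide) (by decide) (by decide)) (by norm_num)

omit hA hB hI hS hT hQ in
theorem iE3_14 : IsP al6 (pu q3) (pu q14) E3_14 :=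
  ep_isP hE (by decide) (adm_of (al := al6) (u := q3) (a := 0) (b := 2) (by decide) (by decide) (by decide) (by decide)) (by norm_num)

omit hA hB hI hS hT hQ in
theorem iE14_3 : IsP al6 (pu q14) (pu q3) E14_3 :=
  ep_isP hE (by decide) (adm_of (al := al6) (u := q14) (a := 0) (b := 2) (by decide) (by decide) (by decide) (by decide)) (by norm_num)

omit hA hB hI hS hT hQ in
theorem iE3_4 : IsP al6 (pu q3) (pu q4) E3_4 :=
  ep_isP hE (by decide) (adm_of (al := al6) (u := q3) (a := 3) (b := 5) (by decide) (by decide) (by decide) (by decide)) (by norm_num)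

omit hA hB hI hS hT hQ in
theorem iE4_3 : IsP al6 (pu q4) (pu q3) E4_3 :=
  ep_isP hE (by decide) (adm_of (al := al6) (u := q4) (a := 3) (b := 5) (by decide) (by decide) (by decide) (by decide)) (by norm_num)

omit hA hB hI hS hT hQ in
theorem iE4_5 : IsP al6 (pu q4) (pu q5) E4_5 :=
  ep_isP hE (by decide) (adm_of (al := al6) (u := q4) (a := 0) (b := 2) (by decide) (by decide) (by decide) (by decide)) (by norm_num)

omit hA hB hI hS hT hQ in
theorem iE5_4 : IsP al6 (pu q5) (pu q4) E5_4 :=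
  ep_isP hE (by decide) (adm_of (al := al6) (u := q5) (a := 0) (b := 2) (by decide) (by decide) (by decide) (by decide)) (by norm_num)

omit hA hB hI hS hT hQ in
theorem iE5_14 : IsP al6 (pu q5) (pu q14) E5_14 :=
  ep_isP hE (by decide) (adm_of (al := al6) (u := q5) (a := 3) (b := 5) (by decide) (by decide) (by decide) (by decide)) (by norm_num)

omit hA hB hI hS hT hQ in
theorem iE14_5 : IsP al6 (pu q14) (pu q5) E14_5 :=
  ep_isP hE (by decide) (adm_of (al := al6) (u := q14) (a := 3) (b := 5) (by decide) (by decide) (by decide) (by decide)) (by norm_num)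

omit hA hB hI hS hT hQ in
theorem iE4_2 : IsP al6 (pu q4) (pu q2) E4_2 :=
  ep_isP hE (by decide) (adm_of (al := al6) (u := q4) (a := 0) (b := 5) (by decide) (by decide) (by decide) (by decide)) (by norm_num)

omit hA hB hI hS hT hQ in
theorem iE2_4 : IsP al6 (pu q2) (pu q4) E2_4 :=
  ep_isP hE (by decide) (adm_of (al := al6) (u := q2) (a := 0) (b := 5) (by decide) (by decide) (by decide) (by decide)) (by norm_num)

omit hA hB hI hS hT hQ in
theorem iE4_6 : IsP al6 (pu q4) (pu q6) E4_6 :=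
  ep_isP hE (by decide) (adm_of (al := al6) (u := q4) (a := 3) (b := 4) (by decide) (by decide) (by decide) (by decide)) (by norm_num)

omit hA hB hI hS hT hQ in
theorem iE6_4 : IsP al6 (pu q6) (pu q4) E6_4 :=
  ep_isP hE (by decide) (adm_of (al := al6) (u := q6) (a := 3) (b := 4) (by decide) (by decide) (by decide) (by decide)) (by norm_num)

omit hA hB hI hS hT hQ in
theorem iE6_1 : IsP al6 (pu q6) (pu q1) E6_1 :=
  ep_isP hE (by decide) (adm_of (al := al6) (u := q6) (a := 0) (b := 5) (by decide) (by decide) (by decide) (by decide)) (by norm_num)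

omit hA hB hI hS hT hQ in
theorem iE1_6 : IsP al6 (pu q1) (pu q6) E1_6 :=
  ep_isP hE (by decide) (adm_of (al := al6) (u := q1) (a := 0) (b := 5) (by decide) (by decide) (by decide) (by decide)) (by norm_num)

omit hA hB hI hS hT hQ in
theorem iE5_7 : IsP al6 (pu q5) (pu q7) E5_7 :=
  ep_isP hE (by decide) (adm_of (al := al6) (u := q5) (a := 3) (b := 4) (by decide) (by decide) (by decide) (by decide)) (by norm_num)

omit hA hB hI hS hT hQ in
theorem iE7_5 : IsP al6 (pu q7) (pu q5) E7_5 :=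
  ep_isP hE (by decide) (adm_of (al := al6) (u := q7) (a := 3) (b := 4) (by decide) (by decide) (by decide) (by decide)) (by norm_num)

omit hA hB hI hS hT hQ in
theorem iE7_6 : IsP al6 (pu q7) (pu q6) E7_6 :=
  ep_isP hE (by decide) (adm_of (al := al6) (u := q7) (a := 0) (b := 2) (by decide) (by decide) (by decide) (by decide)) (by norm_num)

omit hA hB hI hS hT hQ in
theorem iE6_7 : IsP al6 (pu q6) (pu q7) E6_7 :=
  ep_isP hE (by decide) (adm_of (al := al6) (u := q6) (a := 0) (b := 2) (by decide) (by decide) (by decide) (by decide)) (by norm_num)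

omit hA hB hI hS hT hQ in
theorem iE6_8 : IsP al6 (pu q6) (pu q8) E6_8 :=
  ep_isP hE (by decide) (adm_of (al := al6) (u := q6) (a := 1) (b := 3) (by decide) (by decide) (by decide) (by decide)) (by norm_num)

omit hA hB hI hS hT hQ in
theorem iE8_6 : IsP al6 (pu q8) (pu q6) E8_6 :=
  ep_isP hE (by decide) (adm_of (al := al6) (u := q8) (a := 1) (b := 3) (by decide) (by decide) (by decide) (by decide)) (by norm_num)

omit hA hB hI hS hT hQ in
theorem iE8_0 : IsP al6 (pu q8) (pu q0) E8_0 :=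
  ep_isP hE (by decide) (adm_of (al := al6) (u := q8) (a := 0) (b := 5) (by decide) (by decide) (by decide) (by decide)) (by norm_num)

omit hA hB hI hS hT hQ in
theorem iE0_8 : IsP al6 (pu q0) (pu q8) E0_8 :=
  ep_isP hE (by decide) (adm_of (al := al6) (u := q0) (a := 0) (b := 5) (by decide) (by decide) (by decide) (by decide)) (by norm_num)

omit hA hB hI hS hT hQ in
theorem iE7_9 : IsP al6 (pu q7) (pu q9) E7_9 :=
  ep_isP hE (by decide) (adm_of (al := al6) (u := q7) (a := 1) (b := 3) (by decide) (by decide) (by decide) (by decide)) (by norm_num)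

omit hA hB hI hS hT hQ in
theorem iE9_7 : IsP al6 (pu q9) (pu q7) E9_7 :=
  ep_isP hE (by decide) (adm_of (al := al6) (u := q9) (a := 1) (b := 3) (by decide) (by decide) (by decide) (by decide)) (by norm_num)

omit hA hB hI hS hT hQ in
theorem iE9_8 : IsP al6 (pu q9) (pu q8) E9_8 :=
  ep_isP hE (by decide) (adm_of (al := al6) (u := q9) (a := 0) (b := 2) (by decide) (by decide) (by decide) (by decide)) (by norm_num)

omit hA hB hI hS hT hQ in
theorem iE8_9 : IsP al6 (pu q8) (pu q9) E8_9 :=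
  ep_isP hE (by decide) (adm_of (al := al6) (u := q8) (a := 0) (b := 2) (by decide) (by decide) (by decide) (by decide)) (by norm_num)

omit hA hB hI hS hT hQ in
theorem iE8_10 : IsP al6 (pu q8) (pu q10) E8_10 :=
  ep_isP hE (by decide) (adm_of (al := al6) (u := q8) (a := 0) (b := 3) (by decide) (by decide) (by decide) (by decide)) (by norm_num)

omit hA hB hI hS hT hQ in
theorem iE10_8 : IsP al6 (pu q10) (pu q8) E10_8 :=
  ep_isP hE (by decide) (adm_of (al := al6) (u := q10) (a := 0) (b := 3) (by decide) (by decide) (by decide) (by decide)) (by norm_num)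

omit hA hB hI hS hT hQ in
theorem iE10_0 : IsP al6 (pu q10) (pu q0) E10_0 :=
  ep_isP hE (by decide) (adm_of (al := al6) (u := q10) (a := 3) (b := 5) (by decide) (by decide) (by decide) (by decide)) (by norm_num)

omit hA hB hI hS hT hQ in
theorem iE0_10 : IsP al6 (pu q0) (pu q10) E0_10 :=
  ep_isP hE (by decide) (adm_of (al := al6) (u := q0) (a := 3) (b := 5) (by decide) (by decide) (by decide) (by decide)) (by norm_num)

omit hA hB hI hS hT hQ in
theorem iE16_11 : IsP al6 (pu q16) (pu q11) E16_11 :=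
  ep_isP hE (by decide) (adm_of (al := al6) (u := q16) (a := 0) (b := 1) (by decide) (by decide) (by decide) (by decide)) (by norm_num)

omit hA hB hI hS hT hQ in
theorem iE11_16 : IsP al6 (pu q11) (pu q16) E11_16 :=
  ep_isP hE (by decide) (adm_of (al := al6) (u := q11) (a := 0) (b := 1) (by decide) (by decide) (by decide) (by decide)) (by norm_num)

omit hA hB hI hS hT hQ in
theorem iE11_10 : IsP al6 (pu q11) (pu q10) E11_10 :=
  ep_isP hE (by decide) (adm_of (al := al6) (u := q11) (a := 1) (b := 2) (by decide) (by decide) (by decide) (by decide)) (by norm_num)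

omit hA hB hI hS hT hQ in
theorem iE10_11 : IsP al6 (pu q10) (pu q11) E10_11 :=
  ep_isP hE (by decide) (adm_of (al := al6) (u := q10) (a := 1) (b := 2) (by decide) (by decide) (by decide) (by decide)) (by norm_num)

omit hA hB hI hS hT hQ in
theorem iE13_0 : IsP al6 (pu q13) (pu q0) E13_0 :=
  ep_isP hE (by decide) (adm_of (al := al6) (u := q13) (a := 1) (b := 2) (by decide) (by decide) (by decide) (by decide)) (by norm_num)

omit hA hB hI hS hT hQ in
theorem iE0_13 : IsP al6 (pu q0) (pu q13) E0_13 :=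
  ep_isP hE (by decide) (adm_of (al := al6) (u := q0) (a := 1) (b := 2) (by decide) (by decide) (by decide) (by decide)) (by norm_num)

omit hA hB hI hS hT hQ in
theorem iE12_13 : IsP al6 (pu q12) (pu q13) E12_13 :=
  ep_isP hE (by decide) (adm_of (al := al6) (u := q12) (a := 0) (b := 1) (by decide) (by decide) (by decide) (by decide)) (by norm_num)

omit hA hB hI hS hT hQ in
theorem iE13_12 : IsP al6 (pu q13) (pu q12) E13_12 :=
  ep_isP hE (by decide) (adm_of (al := al6) (u := q13) (a := 0) (b := 1) (by decide) (by decide) (by decide) (by decide)) (by norm_num)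

omit hA hB hI hS hT hQ in
theorem iE13_11 : IsP al6 (pu q13) (pu q11) E13_11 :=
  ep_isP hE (by decide) (adm_of (al := al6) (u := q13) (a := 3) (b := 5) (by decide) (by decide) (by decide) (by decide)) (by norm_num)

omit hA hB hI hS hT hQ in
theorem iE11_13 : IsP al6 (pu q11) (pu q13) E11_13 :=
  ep_isP hE (by decide) (adm_of (al := al6) (u := q11) (a := 3) (b := 5) (by decide) (by decide) (by decide) (by decide)) (by norm_num)

omit hA hB hI hS hT hQ in
theorem iE12_14 : IsP al6 (pu q12) (pu q14) E12_14 :=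
  ep_isP hE (by decide) (adm_of (al := al6) (u := q12) (a := 2) (b := 4) (by decide) (by decide) (by decide) (by decide)) (by norm_num)

omit hA hB hI hS hT hQ in
theorem iE14_12 : IsP al6 (pu q14) (pu q12) E14_12 :=
  ep_isP hE (by decide) (adm_of (al := al6) (u := q14) (a := 2) (b := 4) (by decide) (by decide) (by decide) (by decide)) (by norm_num)

omit hA hB hI hS hT hQ in
theorem iE14_15 : IsP al6 (pu q14) (pu q15) E14_15 :=
  ep_isP hE (by decide) (adm_of (al := al6) (u := q14) (a := 0) (b := 1) (by decide) (by decide) (by decide) (by decide)) (by norm_num)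

omit hA hB hI hS hT hQ in
theorem iE15_14 : IsP al6 (pu q15) (pu q14) E15_14 :=
  ep_isP hE (by decide) (adm_of (al := al6) (u := q15) (a := 0) (b := 1) (by decide) (by decide) (by decide) (by decide)) (by norm_num)

omit hA hB hI hS hT hQ in
theorem iE15_13 : IsP al6 (pu q15) (pu q13) E15_13 :=
  ep_isP hE (by decide) (adm_of (al := al6) (u := q15) (a := 2) (b := 4) (by decide) (by decide) (by decide) (by decide)) (by norm_num)

omit hA hB hI hS hT hQ in
theorem iE13_15 : IsP al6 (pu q13) (pu q15) E13_15 :=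
  ep_isP hE (by decide) (adm_of (al := al6) (u := q13) (a := 2) (b := 4) (by decide) (by decide) (by decide) (by decide)) (by norm_num)

omit hA hB hI hS hT hQ in
theorem iE16_7 : IsP al6 (pu q16) (pu q7) E16_7 :=
  ep_isP hE (by decide) (adm_of (al := al6) (u := q16) (a := 2) (b := 3) (by decide) (by decide) (by decide) (by decide)) (by norm_num)

omit hA hB hI hS hT hQ in
theorem iE7_16 : IsP al6 (pu q7) (pu q16) E7_16 :=
  ep_isP hE (by decide) (adm_of (al := al6) (u := q7) (a := 2) (b := 3) (by decide) (by decide) (by decide) (by decide)) (by norm_num)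

omit hA hB hI hS hT hQ in
theorem iE12_16 : IsP al6 (pu q12) (pu q16) E12_16 :=
  ep_isP hE (by decide) (adm_of (al := al6) (u := q12) (a := 3) (b := 5) (by decide) (by decide) (by decide) (by decide)) (by norm_num)

omit hA hB hI hS hT hQ in
theorem iE16_12 : IsP al6 (pu q16) (pu q12) E16_12 :=
  ep_isP hE (by decide) (adm_of (al := al6) (u := q16) (a := 3) (b := 5) (by decide) (by decide) (by decide) (by decide)) (by norm_num)

omit hA hB hI hS hT hQ in
theorem iE16_5 : IsP al6 (pu q16) (pu q5) E16_5 :=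
  ep_isP hE (by decide) (adm_of (al := al6) (u := q16) (a := 2) (b := 4) (by decide) (by decide) (by decide) (by decide)) (by norm_num)

omit hA hB hI hS hT hQ in
theorem iE5_16 : IsP al6 (pu q5) (pu q16) E5_16 :=
  ep_isP hE (by decide) (adm_of (al := al6) (u := q5) (a := 2) (b := 4) (by decide) (by decide) (by decide) (by decide)) (by norm_num)

omit hA hB hI hS hT hQ in
theorem iP15 : IsP al6 (pu q15) (pu q15) P15 :=
  const_isP (okq hE (adm_of (al := al6) (u := q15) (a := 2) (b := 4) (by decide) (by decide) (by decide) (by decide)))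

omit hB hI hS hT hQ in
theorem iP13 : IsP al6 (pu q15) (pu q13) P13 :=
  mu_isP hA (iP15 hE) (iE15_13 hE)

omit hB hI hS hT hQ in
theorem iP14 : IsP al6 (pu q15) (pu q14) P14 :=
  mu_isP hA (iP15 hE) (iE15_14 hE)

omit hB hI hS hT hQ in
theorem iP0 : IsP al6 (pu q15) (pu q0) P0 :=
  mu_isP hA (iP13 hA hE) (iE13_0 hE)

omit hB hI hS hT hQ in
theorem iP12 : IsP al6 (pu q15) (pu q12) P12 :=
  mu_isP hA (iP13 hA hE) (iE13_12 hE)

omit hB hI hS hT hQ in
theorem iP3 : IsP al6 (pu q15) (pu q3) P3 :=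
  mu_isP hA (iP14 hA hE) (iE14_3 hE)

omit hB hI hS hT hQ in
theorem iP1 : IsP al6 (pu q15) (pu q1) P1 :=
  mu_isP hA (iP0 hA hE) (iE0_1 hE)

omit hB hI hS hT hQ in
theorem iP4 : IsP al6 (pu q15) (pu q4) P4 :=
  mu_isP hA (iP3 hA hE) (iE3_4 hE)

omit hB hI hS hT hQ in
theorem iP2 : IsP al6 (pu q15) (pu q2) P2 :=
  mu_isP hA (iP1 hA hE) (iE1_2 hE)

omit hB hI hS hT hQ in
theorem iP5 : IsP al6 (pu q15) (pu q5) P5 :=
  mu_isP hA (iP4 hA hE) (iE4_5 hE)

omit hB hI hS hT hQ in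
theorem iP6 : IsP al6 (pu q15) (pu q6) P6 :=
  mu_isP hA (iP4 hA hE) (iE4_6 hE)

omit hB hI hS hT hQ in
theorem iP7 : IsP al6 (pu q15) (pu q7) P7 :=
  mu_isP hA (iP5 hA hE) (iE5_7 hE)

omit hB hI hS hT hQ in
theorem iP8 : IsP al6 (pu q15) (pu q8) P8 :=
  mu_isP hA (iP6 hA hE) (iE6_8 hE)

omit hB hI hS hT hQ in
theorem iP9 : IsP al6 (pu q15) (pu q9) P9 :=
  mu_isP hA (iP7 hA hE) (iE7_9 hE)

omit hB hI hS hT hQ in
theorem iP10 : IsP al6 (pu q15) (pu q10) P10 :=
  mu_isP hA (iP8 hA hE) (iE8_10 hE)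

omit hB hI hS hT hQ in
theorem iP11 : IsP al6 (pu q15) (pu q11) P11 :=
  mu_isP hA (iP10 hA hE) (iE10_11 hE)

omit hB hI hS hT hQ in
theorem iP16 : IsP al6 (pu q15) (pu q16) P16 :=
  mu_isP hA (iP11 hA hE) (iE11_16 hE)

theorem f15_13 : Hm al6 (pu q15) (pu q13) (mu (pu q15) P15 E15_13) P13 :=
  hm_rfl hA (iP13 hA hE)

theorem f13_15 : Hm al6 (pu q15) (pu q15) (mu (pu q13) P13 E13_15) P15 :=
  inv_fact hA hB (iP15 hE) (iE15_13 hE) (iE13_15 hE)
    (ep_inv hI (by decide) (adm_of (al := al6) (u := q15) (a := 2) (b := 4) (by decide) (by decide) (by decide) (by decide)) (by norm_num) (by norm_num)) (f15_13 hA hB hE hI hS hT hQ)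

theorem f15_14 : Hm al6 (pu q15) (pu q14) (mu (pu q15) P15 E15_14) P14 :=
  hm_rfl hA (iP14 hA hE)

theorem f14_15 : Hm al6 (pu q15) (pu q15) (mu (pu q14) P14 E14_15) P15 :=
  inv_fact hA hB (iP15 hE) (iE15_14 hE) (iE14_15 hE)
    (ep_inv hI (by decide) (adm_of (al := al6) (u := q15) (a := 0) (b := 1) (by decide) (by decide) (by decide) (by decide)) (by norm_num) (by norm_num)) (f15_14 hA hB hE hI hS hT hQ)

theorem f13_0 : Hm al6 (pu q15) (pu q0) (mu (pu q13) P13 E13_0) P0 :=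
  hm_rfl hA (iP0 hA hE)

theorem f0_13 : Hm al6 (pu q15) (pu q13) (mu (pu q0) P0 E0_13) P13 :=
  inv_fact hA hB (iP13 hA hE) (iE13_0 hE) (iE0_13 hE)
    (ep_inv hI (by decide) (adm_of (al := al6) (u := q13) (a := 1) (b := 2) (by decide) (by decide) (by decide) (by decide)) (by norm_num) (by norm_num)) (f13_0 hA hB hE hI hS hT hQ)

theorem f13_12 : Hm al6 (pu q15) (pu q12) (mu (pu q13) P13 E13_12) P12 :=
  hm_rfl hA (iP12 hA hE)

theorem f12_13 : Hm al6 (pu q15) (pu q13) (mu (pu q12) P12 E12_13) P13 :=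
  inv_fact hA hB (iP13 hA hE) (iE13_12 hE) (iE12_13 hE)
    (ep_inv hI (by decide) (adm_of (al := al6) (u := q13) (a := 0) (b := 1) (by decide) (by decide) (by decide) (by decide)) (by norm_num) (by norm_num)) (f13_12 hA hB hE hI hS hT hQ)

theorem f14_3 : Hm al6 (pu q15) (pu q3) (mu (pu q14) P14 E14_3) P3 :=
  hm_rfl hA (iP3 hA hE)

theorem f3_14 : Hm al6 (pu q15) (pu q14) (mu (pu q3) P3 E3_14) P14 :=
  inv_fact hA hB (iP14 hA hE) (iE14_3 hE) (iE3_14 hE)
    (ep_inv hI (by decide) (adm_of (al := al6) (u := q14) (a := 0) (b := 2) (by decide) (by decide) (by decide) (by decide)) (by norm_num) (by norm_num)) (f14_3 hA hB hE hI hS hT hQ)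

theorem f0_1 : Hm al6 (pu q15) (pu q1) (mu (pu q0) P0 E0_1) P1 :=
  hm_rfl hA (iP1 hA hE)

theorem f1_0 : Hm al6 (pu q15) (pu q0) (mu (pu q1) P1 E1_0) P0 :=
  inv_fact hA hB (iP0 hA hE) (iE0_1 hE) (iE1_0 hE)
    (ep_inv hI (by decide) (adm_of (al := al6) (u := q0) (a := 1) (b := 3) (by decide) (by decide) (by decide) (by decide)) (by norm_num) (by norm_num)) (f0_1 hA hB hE hI hS hT hQ)

theorem f3_4 : Hm al6 (pu q15) (pu q4) (mu (pu q3) P3 E3_4) P4 :=
  hm_rfl hA (iP4 hA hE)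

theorem f4_3 : Hm al6 (pu q15) (pu q3) (mu (pu q4) P4 E4_3) P3 :=
  inv_fact hA hB (iP3 hA hE) (iE3_4 hE) (iE4_3 hE)
    (ep_inv hI (by decide) (adm_of (al := al6) (u := q3) (a := 3) (b := 5) (by decide) (by decide) (by decide) (by decide)) (by norm_num) (by norm_num)) (f3_4 hA hB hE hI hS hT hQ)

theorem f1_2 : Hm al6 (pu q15) (pu q2) (mu (pu q1) P1 E1_2) P2 :=
  hm_rfl hA (iP2 hA hE)

theorem f2_1 : Hm al6 (pu q15) (pu q1) (mu (pu q2) P2 E2_1) P1 :=
  inv_fact hA hB (iP1 hA hE) (iE1_2 hE) (iE2_1 hE)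
    (ep_inv hI (by decide) (adm_of (al := al6) (u := q1) (a := 3) (b := 4) (by decide) (by decide) (by decide) (by decide)) (by norm_num) (by norm_num)) (f1_2 hA hB hE hI hS hT hQ)

theorem f4_5 : Hm al6 (pu q15) (pu q5) (mu (pu q4) P4 E4_5) P5 :=
  hm_rfl hA (iP5 hA hE)

theorem f5_4 : Hm al6 (pu q15) (pu q4) (mu (pu q5) P5 E5_4) P4 :=
  inv_fact hA hB (iP4 hA hE) (iE4_5 hE) (iE5_4 hE)
    (ep_inv hI (by decide) (adm_of (al := al6) (u := q4) (a := 0) (b := 2) (by decide) (by decide) (by decide) (by decide)) (by norm_num) (by norm_num)) (f4_5 hA hB hE hI hS hT hQ)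

theorem f4_6 : Hm al6 (pu q15) (pu q6) (mu (pu q4) P4 E4_6) P6 :=
  hm_rfl hA (iP6 hA hE)

theorem f6_4 : Hm al6 (pu q15) (pu q4) (mu (pu q6) P6 E6_4) P4 :=
  inv_fact hA hB (iP4 hA hE) (iE4_6 hE) (iE6_4 hE)
    (ep_inv hI (by decide) (adm_of (al := al6) (u := q4) (a := 3) (b := 4) (by decide) (by decide) (by decide) (by decide)) (by norm_num) (by norm_num)) (f4_6 hA hB hE hI hS hT hQ)

theorem f5_7 : Hm al6 (pu q15) (pu q7) (mu (pu q5) P5 E5_7) P7 :=
  hm_rfl hA (iP7 hA hE)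

theorem f7_5 : Hm al6 (pu q15) (pu q5) (mu (pu q7) P7 E7_5) P5 :=
  inv_fact hA hB (iP5 hA hE) (iE5_7 hE) (iE7_5 hE)
    (ep_inv hI (by decide) (adm_of (al := al6) (u := q5) (a := 3) (b := 4) (by decide) (by decide) (by decide) (by decide)) (by norm_num) (by norm_num)) (f5_7 hA hB hE hI hS hT hQ)

theorem f6_8 : Hm al6 (pu q15) (pu q8) (mu (pu q6) P6 E6_8) P8 :=
  hm_rfl hA (iP8 hA hE)

theorem f8_6 : Hm al6 (pu q15) (pu q6) (mu (pu q8) P8 E8_6) P6 :=
  inv_fact hA hB (iP6 hA hE) (iE6_8 hE) (iE8_6 hE)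
    (ep_inv hI (by decide) (adm_of (al := al6) (u := q6) (a := 1) (b := 3) (by decide) (by decide) (by decide) (by decide)) (by norm_num) (by norm_num)) (f6_8 hA hB hE hI hS hT hQ)

theorem f7_9 : Hm al6 (pu q15) (pu q9) (mu (pu q7) P7 E7_9) P9 :=
  hm_rfl hA (iP9 hA hE)

theorem f9_7 : Hm al6 (pu q15) (pu q7) (mu (pu q9) P9 E9_7) P7 :=
  inv_fact hA hB (iP7 hA hE) (iE7_9 hE) (iE9_7 hE)
    (ep_inv hI (by decide) (adm_of (al := al6) (u := q7) (a := 1) (b := 3) (by decide) (by decide) (by decide) (by decide)) (by norm_num) (by norm_num)) (f7_9 hA hB hE hI hS hT hQ)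

theorem f8_10 : Hm al6 (pu q15) (pu q10) (mu (pu q8) P8 E8_10) P10 :=
  hm_rfl hA (iP10 hA hE)

theorem f10_8 : Hm al6 (pu q15) (pu q8) (mu (pu q10) P10 E10_8) P8 :=
  inv_fact hA hB (iP8 hA hE) (iE8_10 hE) (iE10_8 hE)
    (ep_inv hI (by decide) (adm_of (al := al6) (u := q8) (a := 0) (b := 3) (by decide) (by decide) (by decide) (by decide)) (by norm_num) (by norm_num)) (f8_10 hA hB hE hI hS hT hQ)

theorem f10_11 : Hm al6 (pu q15) (pu q11) (mu (pu q10) P10 E10_11) P11 :=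
  hm_rfl hA (iP11 hA hE)

theorem f11_10 : Hm al6 (pu q15) (pu q10) (mu (pu q11) P11 E11_10) P10 :=
  inv_fact hA hB (iP10 hA hE) (iE10_11 hE) (iE11_10 hE)
    (ep_inv hI (by decide) (adm_of (al := al6) (u := q10) (a := 1) (b := 2) (by decide) (by decide) (by decide) (by decide)) (by norm_num) (by norm_num)) (f10_11 hA hB hE hI hS hT hQ)

theorem f11_16 : Hm al6 (pu q15) (pu q16) (mu (pu q11) P11 E11_16) P16 :=
  hm_rfl hA (iP16 hA hE)

theorem f16_11 : Hm al6 (pu q15) (pu q11) (mu (pu q16) P16 E16_11) P11 :=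
  inv_fact hA hB (iP11 hA hE) (iE11_16 hE) (iE16_11 hE)
    (ep_inv hI (by decide) (adm_of (al := al6) (u := q11) (a := 0) (b := 1) (by decide) (by decide) (by decide) (by decide)) (by norm_num) (by norm_num)) (f11_16 hA hB hE hI hS hT hQ)

/-- Square. -/
theorem f14_5 : Hm al6 (pu q15) (pu q5) (mu (pu q14) P14 E14_5) P5 :=
  sq_fact hA hB (iP3 hA hE) (iE3_4 hE) (iE4_5 hE) (iE3_14 hE) (iE14_5 hE)
    (ep_sq hS (u1 := q4) (u2 := q5) (u3 := q14) (by decide) (by decide) (by decide)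
      (adm_of (al := al6) (u := q3) (a := 3) (b := 5) (by decide) (by decide) (by decide) (by decide))
      (adm_of (al := al6) (u := q3) (a := 0) (b := 2) (by decide) (by decide) (by decide) (by decide))
      (by decide) (by decide) (by decide) (by decide) (by norm_num) (by norm_num))
    (f3_4 hA hB hE hI hS hT hQ) (f4_5 hA hB hE hI hS hT hQ) (f3_14 hA hB hE hI hS hT hQ)

theorem f5_14 : Hm al6 (pu q15) (pu q14) (mu (pu q5) P5 E5_14) P14 :=
  inv_fact hA hB (iP14 hA hE) (iE14_5 hE) (iE5_14 hE)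
    (ep_inv hI (by decide) (adm_of (al := al6) (u := q14) (a := 3) (b := 5) (by decide) (by decide) (by decide) (by decide)) (by norm_num) (by norm_num)) (f14_5 hA hB hE hI hS hT hQ)

/-- Square. -/
theorem f6_7 : Hm al6 (pu q15) (pu q7) (mu (pu q6) P6 E6_7) P7 :=
  sq_fact hA hB (iP4 hA hE) (iE4_5 hE) (iE5_7 hE) (iE4_6 hE) (iE6_7 hE)
    (ep_sq hS (u1 := q5) (u2 := q7) (u3 := q6) (by decide) (by decide) (by decide)
      (adm_of (al := al6) (u := q4) (a := 0) (b := 2) (by decide) (by decide) (by decide) (by decide))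
      (adm_of (al := al6) (u := q4) (a := 3) (b := 4) (by decide) (by decide) (by decide) (by decide))
      (by decide) (by decide) (by decide) (by decide) (by norm_num) (by norm_num))
    (f4_5 hA hB hE hI hS hT hQ) (f5_7 hA hB hE hI hS hT hQ) (f4_6 hA hB hE hI hS hT hQ)

theorem f7_6 : Hm al6 (pu q15) (pu q6) (mu (pu q7) P7 E7_6) P6 :=
  inv_fact hA hB (iP6 hA hE) (iE6_7 hE) (iE7_6 hE)
    (ep_inv hI (by decide) (adm_of (al := al6) (u := q6) (a := 0) (b := 2) (by decide) (by decide) (by decide) (by decide)) (by norm_num) (by norm_num)) (f6_7 hA hB hE hI hS hT hQ)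

/-- Square. -/
theorem f8_9 : Hm al6 (pu q15) (pu q9) (mu (pu q8) P8 E8_9) P9 :=
  sq_fact hA hB (iP6 hA hE) (iE6_7 hE) (iE7_9 hE) (iE6_8 hE) (iE8_9 hE)
    (ep_sq hS (u1 := q7) (u2 := q9) (u3 := q8) (by decide) (by decide) (by decide)
      (adm_of (al := al6) (u := q6) (a := 0) (b := 2) (by decide) (by decide) (by decide) (by decide))
      (adm_of (al := al6) (u := q6) (a := 1) (b := 3) (by decide) (by decide) (by decide) (by decide))
      (by decide) (by decide) (by decide) (by decide) (by norm_num) (by norm_num))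
    (f6_7 hA hB hE hI hS hT hQ) (f7_9 hA hB hE hI hS hT hQ) (f6_8 hA hB hE hI hS hT hQ)

theorem f9_8 : Hm al6 (pu q15) (pu q8) (mu (pu q9) P9 E9_8) P8 :=
  inv_fact hA hB (iP8 hA hE) (iE8_9 hE) (iE9_8 hE)
    (ep_inv hI (by decide) (adm_of (al := al6) (u := q8) (a := 0) (b := 2) (by decide) (by decide) (by decide) (by decide)) (by norm_num) (by norm_num)) (f8_9 hA hB hE hI hS hT hQ)

/-- Tetrahedral cell. -/
theorem f7_16 : Hm al6 (pu q15) (pu q16) (mu (pu q7) P7 E7_16) P16 := by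
  have hr := (hQ 6 al6 q11 ![1, 3, 2, 0] ![2, 0, 1, 3] ![1, -1, -1, 1] (by decide) (by decide) (by decide) (by decide) (by decide)
      (by intro i; fin_cases i <;> norm_num) q10 q8 q9 q7 q16
      (by decide) (by decide) (by decide) (by decide) (by decide)).2
  have hr2 : Hm al6 (pu q11) (pu q11)
      (mu (pu q8) (mu (pu q10) E11_10 E10_8) (mu (pu q7) (mu (pu q9) E8_9 E9_7) (mu (pu q16) E7_16 E16_11))) (fun _ => pu q11) := by
    have g0 : ep q11 2 1 (-1 : ℝ) = E11_10 := ep_flip (al := al6) hE (adm_of (al := al6) (u := q11) (a := 1) (b := 2) (by decide) (by decide) (by decide) (by decide)) (by norm_num) (by norm_num)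
    have g1 : ep q10 3 0 (-1 : ℝ) = E10_8 := ep_flip (al := al6) hE (adm_of (al := al6) (u := q10) (a := 0) (b := 3) (by decide) (by decide) (by decide) (by decide)) (by norm_num) (by norm_num)
    have g2 : ep q8 0 2 (-1 : ℝ) = E8_9 := rfl
    have g3 : ep q9 3 1 (-1 : ℝ) = E9_7 := ep_flip (al := al6) hE (adm_of (al := al6) (u := q9) (a := 1) (b := 3) (by decide) (by decide) (by decide) (by decide)) (by norm_num) (by norm_num)
    have g4 : ep q7 2 3 (1 : ℝ) = E7_16 := rfl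
    have g5 : ep q16 0 1 (1 : ℝ) = E16_11 := rfl
    rw [← g0, ← g1, ← g2, ← g3, ← g4, ← g5]
    convert hr using 2 <;> simp
  exact tet_fact_pre hA hB (iP11 hA hE) (iE11_10 hE) (iE10_8 hE) (iE8_9 hE) (iE9_7 hE) (iE7_16 hE) (iE16_11 hE) (iE11_16 hE) hr2
    (ep_inv hI (by decide) (adm_of (al := al6) (u := q16) (a := 0) (b := 1) (by decide) (by decide) (by decide) (by decide)) (by norm_num) (by norm_num)) (f11_10 hA hB hE hI hS hT hQ) (f10_8 hA hB hE hI hS hT hQ) (f8_9 hA hB hE hI hS hT hQ) (f9_7 hA hB hE hI hS hT hQ) (f11_16 hA hB hE hI hS hT hQ)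

theorem f16_7 : Hm al6 (pu q15) (pu q7) (mu (pu q16) P16 E16_7) P7 :=
  inv_fact hA hB (iP7 hA hE) (iE7_16 hE) (iE16_7 hE)
    (ep_inv hI (by decide) (adm_of (al := al6) (u := q7) (a := 2) (b := 3) (by decide) (by decide) (by decide) (by decide)) (by norm_num) (by norm_num)) (f7_16 hA hB hE hI hS hT hQ)

/-- Square. -/
theorem f14_12 : Hm al6 (pu q15) (pu q12) (mu (pu q14) P14 E14_12) P12 :=
  sq_fact hA hB (iP15 hE) (iE15_13 hE) (iE13_12 hE) (iE15_14 hE) (iE14_12 hE)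
    (ep_sq hS (u1 := q13) (u2 := q12) (u3 := q14) (by decide) (by decide) (by decide)
      (adm_of (al := al6) (u := q15) (a := 2) (b := 4) (by decide) (by decide) (by decide) (by decide))
      (adm_of (al := al6) (u := q15) (a := 0) (b := 1) (by decide) (by decide) (by decide) (by decide))
      (by decide) (by decide) (by decide) (by decide) (by norm_num) (by norm_num))
    (f15_13 hA hB hE hI hS hT hQ) (f13_12 hA hB hE hI hS hT hQ) (f15_14 hA hB hE hI hS hT hQ)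

theorem f12_14 : Hm al6 (pu q15) (pu q14) (mu (pu q12) P12 E12_14) P14 :=
  inv_fact hA hB (iP14 hA hE) (iE14_12 hE) (iE12_14 hE)
    (ep_inv hI (by decide) (adm_of (al := al6) (u := q14) (a := 2) (b := 4) (by decide) (by decide) (by decide) (by decide)) (by norm_num) (by norm_num)) (f14_12 hA hB hE hI hS hT hQ)

/-- Triangle. -/
theorem f16_5 : Hm al6 (pu q15) (pu q5) (mu (pu q16) P16 E16_5) P5 := by
  have hr := ep_tri (al := al6) hT (u := q7) (u1 := q16) (u2 := q5) (a := 3) (b := 2) (c := 4) (e := (-1 : ℝ)) (f := (-1 : ℝ)) (g := (1 : ℝ))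
      (by decide) (by decide) (by decide) (by decide) (by decide) (by decide) (by decide) (by decide)
      (by decide) (by decide) (by decide) (by norm_num) (by norm_num) (by norm_num)
  rw [ep_flip (al := al6) hE (u := q7) (a := 2) (b := 3) (e := (-1 : ℝ)) (e' := (1 : ℝ)) (adm_of (al := al6) (u := q7) (a := 2) (b := 3) (by decide) (by decide) (by decide) (by decide)) (by norm_num) (by norm_num)] at hr
  exact tri_fact hA hB (iP7 hA hE) (iE7_16 hE) (iE16_5 hE) hr (f7_16 hA hB hE hI hS hT hQ) (f7_5 hA hB hE hI hS hT hQ)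

theorem f5_16 : Hm al6 (pu q15) (pu q16) (mu (pu q5) P5 E5_16) P16 :=
  inv_fact hA hB (iP16 hA hE) (iE16_5 hE) (iE5_16 hE)
    (ep_inv hI (by decide) (adm_of (al := al6) (u := q16) (a := 2) (b := 4) (by decide) (by decide) (by decide) (by decide)) (by norm_num) (by norm_num)) (f16_5 hA hB hE hI hS hT hQ)

/-- Square. -/
theorem f16_12 : Hm al6 (pu q15) (pu q12) (mu (pu q16) P16 E16_12) P12 :=
  sq_fact hA hB (iP5 hA hE) (iE5_14 hE) (iE14_12 hE) (iE5_16 hE) (iE16_12 hE)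
    (ep_sq hS (u1 := q14) (u2 := q12) (u3 := q16) (by decide) (by decide) (by decide)
      (adm_of (al := al6) (u := q5) (a := 3) (b := 5) (by decide) (by decide) (by decide) (by decide))
      (adm_of (al := al6) (u := q5) (a := 2) (b := 4) (by decide) (by decide) (by decide) (by decide))
      (by decide) (by decide) (by decide) (by decide) (by norm_num) (by norm_num))
    (f5_14 hA hB hE hI hS hT hQ) (f14_12 hA hB hE hI hS hT hQ) (f5_16 hA hB hE hI hS hT hQ)

theorem f12_16 : Hm al6 (pu q15) (pu q16) (mu (pu q12) P12 E12_16) P16 :=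
  inv_fact hA hB (iP16 hA hE) (iE16_12 hE) (iE12_16 hE)
    (ep_inv hI (by decide) (adm_of (al := al6) (u := q16) (a := 3) (b := 5) (by decide) (by decide) (by decide) (by decide)) (by norm_num) (by norm_num)) (f16_12 hA hB hE hI hS hT hQ)

/-- Square. -/
theorem f11_13 : Hm al6 (pu q15) (pu q13) (mu (pu q11) P11 E11_13) P13 :=
  sq_fact hA hB (iP16 hA hE) (iE16_12 hE) (iE12_13 hE) (iE16_11 hE) (iE11_13 hE)
    (ep_sq hS (u1 := q12) (u2 := q13) (u3 := q11) (by decide) (by decide) (by decide)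
      (adm_of (al := al6) (u := q16) (a := 3) (b := 5) (by decide) (by decide) (by decide) (by decide))
      (adm_of (al := al6) (u := q16) (a := 0) (b := 1) (by decide) (by decide) (by decide) (by decide))
      (by decide) (by decide) (by decide) (by decide) (by norm_num) (by norm_num))
    (f16_12 hA hB hE hI hS hT hQ) (f12_13 hA hB hE hI hS hT hQ) (f16_11 hA hB hE hI hS hT hQ)

theorem f13_11 : Hm al6 (pu q15) (pu q11) (mu (pu q13) P13 E13_11) P11 :=
  inv_fact hA hB (iP11 hA hE) (iE11_13 hE) (iE13_11 hE)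
    (ep_inv hI (by decide) (adm_of (al := al6) (u := q11) (a := 3) (b := 5) (by decide) (by decide) (by decide) (by decide)) (by norm_num) (by norm_num)) (f11_13 hA hB hE hI hS hT hQ)

/-- Square. -/
theorem f10_0 : Hm al6 (pu q15) (pu q0) (mu (pu q10) P10 E10_0) P0 :=
  sq_fact hA hB (iP11 hA hE) (iE11_13 hE) (iE13_0 hE) (iE11_10 hE) (iE10_0 hE)
    (ep_sq hS (u1 := q13) (u2 := q0) (u3 := q10) (by decide) (by decide) (by decide)
      (adm_of (al := al6) (u := q11) (a := 3) (b := 5) (by decide) (by decide) (by decide) (by decide))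
      (adm_of (al := al6) (u := q11) (a := 1) (b := 2) (by decide) (by decide) (by decide) (by decide))
      (by decide) (by decide) (by decide) (by decide) (by norm_num) (by norm_num))
    (f11_13 hA hB hE hI hS hT hQ) (f13_0 hA hB hE hI hS hT hQ) (f11_10 hA hB hE hI hS hT hQ)

theorem f0_10 : Hm al6 (pu q15) (pu q10) (mu (pu q0) P0 E0_10) P10 :=
  inv_fact hA hB (iP10 hA hE) (iE10_0 hE) (iE0_10 hE)
    (ep_inv hI (by decide) (adm_of (al := al6) (u := q10) (a := 3) (b := 5) (by decide) (by decide) (by decide) (by decide)) (by norm_num) (by norm_num)) (f10_0 hA hB hE hI hS hT hQ)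

/-- Triangle. -/
theorem f8_0 : Hm al6 (pu q15) (pu q0) (mu (pu q8) P8 E8_0) P0 := by
  have hr := ep_tri (al := al6) hT (u := q10) (u1 := q8) (u2 := q0) (a := 3) (b := 0) (c := 5) (e := (-1 : ℝ)) (f := (1 : ℝ)) (g := (-1 : ℝ))
      (by decide) (by decide) (by decide) (by decide) (by decide) (by decide) (by decide) (by decide)
      (by decide) (by decide) (by decide) (by norm_num) (by norm_num) (by norm_num)
  rw [ep_flip (al := al6) hE (u := q10) (a := 0) (b := 3) (e := (-1 : ℝ)) (e' := (1 : ℝ)) (adm_of (al := al6) (u := q10) (a := 0) (b := 3) (by decide) (by decide) (by decide) (by decide)) (by norm_num) (by norm_num)] at hr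
  exact tri_fact hA hB (iP10 hA hE) (iE10_8 hE) (iE8_0 hE) hr (f10_8 hA hB hE hI hS hT hQ) (f10_0 hA hB hE hI hS hT hQ)

theorem f0_8 : Hm al6 (pu q15) (pu q8) (mu (pu q0) P0 E0_8) P8 :=
  inv_fact hA hB (iP8 hA hE) (iE8_0 hE) (iE0_8 hE)
    (ep_inv hI (by decide) (adm_of (al := al6) (u := q8) (a := 0) (b := 5) (by decide) (by decide) (by decide) (by decide)) (by norm_num) (by norm_num)) (f8_0 hA hB hE hI hS hT hQ)

/-- Square. -/
theorem f6_1 : Hm al6 (pu q15) (pu q1) (mu (pu q6) P6 E6_1) P1 :=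
  sq_fact hA hB (iP8 hA hE) (iE8_0 hE) (iE0_1 hE) (iE8_6 hE) (iE6_1 hE)
    (ep_sq hS (u1 := q0) (u2 := q1) (u3 := q6) (by decide) (by decide) (by decide)
      (adm_of (al := al6) (u := q8) (a := 0) (b := 5) (by decide) (by decide) (by decide) (by decide))
      (adm_of (al := al6) (u := q8) (a := 1) (b := 3) (by decide) (by decide) (by decide) (by decide))
      (by decide) (by decide) (by decide) (by decide) (by norm_num) (by norm_num))
    (f8_0 hA hB hE hI hS hT hQ) (f0_1 hA hB hE hI hS hT hQ) (f8_6 hA hB hE hI hS hT hQ)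

theorem f1_6 : Hm al6 (pu q15) (pu q6) (mu (pu q1) P1 E1_6) P6 :=
  inv_fact hA hB (iP6 hA hE) (iE6_1 hE) (iE1_6 hE)
    (ep_inv hI (by decide) (adm_of (al := al6) (u := q6) (a := 0) (b := 5) (by decide) (by decide) (by decide) (by decide)) (by norm_num) (by norm_num)) (f6_1 hA hB hE hI hS hT hQ)

/-- Square. -/
theorem f4_2 : Hm al6 (pu q15) (pu q2) (mu (pu q4) P4 E4_2) P2 :=
  sq_fact hA hB (iP6 hA hE) (iE6_1 hE) (iE1_2 hE) (iE6_4 hE) (iE4_2 hE)
    (ep_sq hS (u1 := q1) (u2 := q2) (u3 := q4) (by decide) (by decide) (by decide)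
      (adm_of (al := al6) (u := q6) (a := 0) (b := 5) (by decide) (by decide) (by decide) (by decide))
      (adm_of (al := al6) (u := q6) (a := 3) (b := 4) (by decide) (by decide) (by decide) (by decide))
      (by decide) (by decide) (by decide) (by decide) (by norm_num) (by norm_num))
    (f6_1 hA hB hE hI hS hT hQ) (f1_2 hA hB hE hI hS hT hQ) (f6_4 hA hB hE hI hS hT hQ)

theorem f2_4 : Hm al6 (pu q15) (pu q4) (mu (pu q2) P2 E2_4) P4 :=
  inv_fact hA hB (iP4 hA hE) (iE4_2 hE) (iE2_4 hE)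
    (ep_inv hI (by decide) (adm_of (al := al6) (u := q4) (a := 0) (b := 5) (by decide) (by decide) (by decide) (by decide)) (by norm_num) (by norm_num)) (f4_2 hA hB hE hI hS hT hQ)

/-- Triangle. -/
theorem f3_2 : Hm al6 (pu q15) (pu q2) (mu (pu q3) P3 E3_2) P2 := by
  have hr := ep_tri (al := al6) hT (u := q4) (u1 := q3) (u2 := q2) (a := 5) (b := 3) (c := 0) (e := (1 : ℝ)) (f := (-1 : ℝ)) (g := (-1 : ℝ))
      (by decide) (by decide) (by decide) (by decide) (by decide) (by decide) (by decide) (by decide)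
      (by decide) (by decide) (by decide) (by norm_num) (by norm_num) (by norm_num)
  rw [ep_flip (al := al6) hE (u := q4) (a := 3) (b := 5) (e := (1 : ℝ)) (e' := (-1 : ℝ)) (adm_of (al := al6) (u := q4) (a := 3) (b := 5) (by decide) (by decide) (by decide) (by decide)) (by norm_num) (by norm_num),
    ep_flip (al := al6) hE (u := q3) (a := 0) (b := 3) (e := (-1 : ℝ)) (e' := (1 : ℝ)) (adm_of (al := al6) (u := q3) (a := 0) (b := 3) (by decide) (by decide) (by decide) (by decide)) (by norm_num) (by norm_num),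
    ep_flip (al := al6) hE (u := q4) (a := 0) (b := 5) (e := (-1 : ℝ)) (e' := (1 : ℝ)) (adm_of (al := al6) (u := q4) (a := 0) (b := 5) (by decide) (by decide) (by decide) (by decide)) (by norm_num) (by norm_num)] at hr
  exact tri_fact hA hB (iP4 hA hE) (iE4_3 hE) (iE3_2 hE) hr (f4_3 hA hB hE hI hS hT hQ) (f4_2 hA hB hE hI hS hT hQ)

theorem f2_3 : Hm al6 (pu q15) (pu q3) (mu (pu q2) P2 E2_3) P3 :=
  inv_fact hA hB (iP3 hA hE) (iE3_2 hE) (iE2_3 hE)
    (ep_inv hI (by decide) (adm_of (al := al6) (u := q3) (a := 0) (b := 3) (by decide) (by decide) (by decide) (by decide)) (by norm_num) (by norm_num)) (f3_2 hA hB hE hI hS hT hQ)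


/-- **DER**. -/
theorem hDER : StDER := by
  have a6 : Adm al6 (st6 6) 0 1 := adm_of (by decide) (by decide) (by decide) (by decide)
  have a5 : Adm al6 (st6 5) 0 2 := adm_of (by decide) (by decide) (by decide) (by decide)
  have a4 : Adm al6 (st6 4) 0 3 := adm_of (by decide) (by decide) (by decide) (by decide)
  have h6 : rv (g6 6) = E15_14 := by
    have h : rv (ep (st6 6) 0 1 1) = ep (sw (st6 6) 0 1) 0 1 (-1) :=
      (hE 6 al6 (st6 6) 0 1 1 a6 (by norm_num)).2.1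
    have h2 : sw (st6 6) 0 1 = q15 := by decide
    rw [h2] at h
    exact h
  have h5 : rv (g6 5) = E14_3 := by
    have h : rv (ep (st6 5) 0 2 (-1)) = ep (sw (st6 5) 0 2) 0 2 (-(-1)) :=
      (hE 6 al6 (st6 5) 0 2 (-1) a5 (by norm_num)).2.1
    have h2 : sw (st6 5) 0 2 = q14 := by decide
    rw [h2, neg_neg] at h
    exact h
  have h4 : rv (g6 4) = E3_2 := by
    have h : rv (ep (st6 4) 0 3 (-1)) = ep (sw (st6 4) 0 3) 0 3 (-(-1)) :=
      (hE 6 al6 (st6 4) 0 3 (-1) a4 (by norm_num)).2.1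
    have h2 : sw (st6 4) 0 3 = q3 := by decide
    rw [h2, neg_neg] at h
    exact h
  have s0 : st6 0 = q15 := by decide
  have s1 : st6 1 = q13 := by decide
  have s2 : st6 2 = q0 := by decide
  have s3 : st6 3 = q1 := by decide
  have s4 : st6 4 = q2 := by decide
  have s5 : st6 5 = q3 := by decide
  have s6 : st6 6 = q14 := by decide
  have t0 : g6 0 = E15_13 := rfl
  have t1 : g6 1 = E13_0 := rfl
  have t2 : g6 2 = E0_1 := rfl
  have t3 : g6 3 = E1_2 := rfl
  unfold StDER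
  rw [h6, h5, h4, t0, t1, t2, t3, s0, s1, s2, s3, s4, s5, s6]
  have i0 := (iE15_13 hE)
  have i1 := (iE13_0 hE)
  have i2 := (iE0_1 hE)
  have i3 := (iE1_2 hE)
  have j0 := (iE15_14 hE)
  have j1 := (iE14_3 hE)
  have j2 := (iE3_2 hE)
  have pb := (iP15 hE)
  -- left side: the path through the rays 0, 1, 2, 3
  have A1 : Hm al6 (pu q15) (pu q13) (mu (pu q15) P15 E15_13) P13 := (f15_13 hA hB hE hI hS hT hQ)
  have A2 : Hm al6 (pu q15) (pu q0) (mu (pu q13) P13 E13_0) P0 := (f13_0 hA hB hE hI hS hT hQ)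
  have A3 : Hm al6 (pu q15) (pu q1) (mu (pu q0) P0 E0_1) P1 := (f0_1 hA hB hE hI hS hT hQ)
  have A4 : Hm al6 (pu q15) (pu q2) (mu (pu q1) P1 E1_2) P2 := (f1_2 hA hB hE hI hS hT hQ)
  have B1 : Hm al6 (pu q15) (pu q14) (mu (pu q15) P15 E15_14) P14 := (f15_14 hA hB hE hI hS hT hQ)
  have B2 : Hm al6 (pu q15) (pu q3) (mu (pu q14) P14 E14_3) P3 := (f14_3 hA hB hE hI hS hT hQ)
  have B3 : Hm al6 (pu q15) (pu q2) (mu (pu q3) P3 E3_2) P2 := (f3_2 hA hB hE hI hS hT hQ)
  exact chain43 hA hB pb i0 i1 i2 i3 j0 j1 j2 (hm_unit_l hB i0) A1 A2 A3 A4 (hm_unit_l hB j0) B1 B2 B3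

end

end Der

end Pool.Agent.Helper71.UN
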