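import Pool.Agent.Helper71.UN.StD

/-!
# Project UN, module DER, part 1: calculus of homotopies
-/

set_option autoImplicit false

open Set Filter Topology Matrix
open scoped ContDiff ComplexConjugate

noncomputable section

namespace Pool.Agent.Helper71.UN

variable {n : ℕ} {al : Fin 4 → Fin n → Bool}

theorem hm_rfl (hA : StLWA) {x y : Fm n} {γ : ℝ → Fm n} (h : IsP al x y γ) : Hm al x y γ γ :=
  (hA n al x y x γ γ γ γ γ).1 h

theorem hm_symm (hA : StLWA) {x y : Fm n} {γ γ' : ℝ → Fm n} (h : Hm al x y γ γ') :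
    Hm al x y γ' γ :=
  (hA n al x y x γ γ' γ γ γ).2.1 h

theorem hm_trans (hA : StLWA) {x y : Fm n} {γ γ' γ'' : ℝ → Fm n} (h : Hm al x y γ γ')
    (h' : Hm al x y γ' γ'') : Hm al x y γ γ'' :=
  (hA n al x y x γ γ' γ'' γ γ).2.2.1 h h'

theorem hm_l (hA : StLWA) {x y : Fm n} {γ γ' : ℝ → Fm n} (h : Hm al x y γ γ') : IsP al x y γ :=
  ((hA n al x y x γ γ' γ γ γ).2.2.2.1 h).1

theorem hm_r (hA : StLWA) {x y : Fm n} {γ γ' : ℝ → Fm n} (h : Hm al x y γ γ') : IsP al x y γ' :=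
  ((hA n al x y x γ γ' γ γ γ).2.2.2.1 h).2

theorem mu_isP (hA : StLWA) {x y z : Fm n} {γ δ : ℝ → Fm n} (h : IsP al x y γ)
    (h' : IsP al y z δ) : IsP al x z (mu y γ δ) :=
  ((hA n al x y z γ γ γ δ δ).2.2.2.2.1 h h').1

theorem hm_mu (hA : StLWA) {x y z : Fm n} {γ γ' δ δ' : ℝ → Fm n} (h : Hm al x y γ γ')
    (h' : Hm al y z δ δ') : Hm al x z (mu y γ δ) (mu y γ' δ') :=
  (hA n al x y z γ γ' γ δ δ').2.2.2.2.2.1 h h'

theorem hm_assoc (hB : StLWB) {x y z w : Fm n} {γ δ ε : ℝ → Fm n} (h : IsP al x y γ)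
    (h' : IsP al y z δ) (h'' : IsP al z w ε) :
    Hm al x w (mu z (mu y γ δ) ε) (mu y γ (mu z δ ε)) :=
  (hB n al x y z w γ δ ε).1 h h' h''

theorem hm_unit_l (hB : StLWB) {x y : Fm n} {γ : ℝ → Fm n} (h : IsP al x y γ) :
    Hm al x y (mu x (fun _ => x) γ) γ :=
  ((hB n al x y x x γ γ γ).2 h).1

theorem hm_unit_r (hB : StLWB) {x y : Fm n} {γ : ℝ → Fm n} (h : IsP al x y γ) :
    Hm al x y (mu y γ (fun _ => y)) γ :=
  ((hB n al x y x x γ γ γ).2 h).2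

/-- Fact of the inverse edge. -/
theorem inv_fact (hA : StLWA) (hB : StLWB) {x y z : Fm n} {P Q E E' : ℝ → Fm n}
    (hP : IsP al x y P) (hE : IsP al y z E) (hE' : IsP al z y E')
    (hr : Hm al y y (mu z E E') (fun _ => y)) (hF : Hm al x z (mu y P E) Q) :
    Hm al x y (mu z Q E') P := by
  have h1 : Hm al x y (mu z Q E') (mu z (mu y P E) E') :=
    hm_mu hA (hm_symm hA hF) (hm_rfl hA hE')
  have h2 := hm_assoc hB hP hE hE'
  have h3 : Hm al x y (mu y P (mu z E E')) (mu y P (fun _ => y)) := hm_mu hA (hm_rfl hA hP) hr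
  exact hm_trans hA h1 (hm_trans hA h2 (hm_trans hA h3 (hm_unit_r hB hP)))

/-- Fact of a square. -/
theorem sq_fact (hA : StLWA) (hB : StLWB) {x u0 u1 u2 u3 : Fm n}
    {P0 P1 P2 P3 E01 E12 E03 E32 : ℝ → Fm n}
    (h0 : IsP al x u0 P0) (e01 : IsP al u0 u1 E01) (e12 : IsP al u1 u2 E12)
    (e03 : IsP al u0 u3 E03) (e32 : IsP al u3 u2 E32)
    (hr : Hm al u0 u2 (mu u1 E01 E12) (mu u3 E03 E32))
    (f01 : Hm al x u1 (mu u0 P0 E01) P1) (f12 : Hm al x u2 (mu u1 P1 E12) P2)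
    (f03 : Hm al x u3 (mu u0 P0 E03) P3) : Hm al x u2 (mu u3 P3 E32) P2 := by
  have h1 : Hm al x u2 (mu u3 P3 E32) (mu u3 (mu u0 P0 E03) E32) :=
    hm_mu hA (hm_symm hA f03) (hm_rfl hA e32)
  have h2 := hm_assoc hB h0 e03 e32
  have h3 : Hm al x u2 (mu u0 P0 (mu u3 E03 E32)) (mu u0 P0 (mu u1 E01 E12)) :=
    hm_mu hA (hm_rfl hA h0) (hm_symm hA hr)
  have h4 := hm_symm hA (hm_assoc hB h0 e01 e12)
  have h5 : Hm al x u2 (mu u1 (mu u0 P0 E01) E12) (mu u1 P1 E12) := hm_mu hA f01 (hm_rfl hA e12)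
  exact hm_trans hA h1 (hm_trans hA h2 (hm_trans hA h3 (hm_trans hA h4 (hm_trans hA h5 f12))))

/-- Fact of a triangle. -/
theorem tri_fact (hA : StLWA) (hB : StLWB) {x u0 u1 u2 : Fm n} {P0 P1 P2 E01 E12 E02 : ℝ → Fm n}
    (h0 : IsP al x u0 P0) (e01 : IsP al u0 u1 E01) (e12 : IsP al u1 u2 E12)
    (hr : Hm al u0 u2 (mu u1 E01 E12) E02)
    (f01 : Hm al x u1 (mu u0 P0 E01) P1) (f02 : Hm al x u2 (mu u0 P0 E02) P2) :
    Hm al x u2 (mu u1 P1 E12) P2 := by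
  have h1 : Hm al x u2 (mu u1 P1 E12) (mu u1 (mu u0 P0 E01) E12) :=
    hm_mu hA (hm_symm hA f01) (hm_rfl hA e12)
  have h2 := hm_assoc hB h0 e01 e12
  have h3 : Hm al x u2 (mu u0 P0 (mu u1 E01 E12)) (mu u0 P0 E02) := hm_mu hA (hm_rfl hA h0) hr
  exact hm_trans hA h1 (hm_trans hA h2 (hm_trans hA h3 f02))

/-- Fact of a tetrahedral cell: the last edge. -/
theorem tet_fact (hA : StLWA) (hB : StLWB) {x u0 u1 u2 u3 u4 u5 : Fm n}
    {P0 P1 P2 P3 P4 P5 E0 E1 E2 E3 E4 E5 : ℝ → Fm n}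
    (h0 : IsP al x u0 P0) (e0 : IsP al u0 u1 E0) (e1 : IsP al u1 u2 E1) (e2 : IsP al u2 u3 E2)
    (e3 : IsP al u3 u4 E3) (e4 : IsP al u4 u5 E4) (e5 : IsP al u5 u0 E5)
    (hr : Hm al u0 u0 (mu u2 (mu u1 E0 E1) (mu u4 (mu u3 E2 E3) (mu u5 E4 E5))) (fun _ => u0))
    (f0 : Hm al x u1 (mu u0 P0 E0) P1) (f1 : Hm al x u2 (mu u1 P1 E1) P2)
    (f2 : Hm al x u3 (mu u2 P2 E2) P3) (f3 : Hm al x u4 (mu u3 P3 E3) P4)
    (f4 : Hm al x u5 (mu u4 P4 E4) P5) : Hm al x u0 (mu u5 P5 E5) P0 := by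
  have p1 := hm_r hA f0
  have p2 := hm_r hA f1
  have p3 := hm_r hA f2
  have p4 := hm_r hA f3
  -- `P5 E5 ~ P4 (E4 E5)`
  have a1 : Hm al x u0 (mu u5 P5 E5) (mu u5 (mu u4 P4 E4) E5) :=
    hm_mu hA (hm_symm hA f4) (hm_rfl hA e5)
  have a2 := hm_assoc hB p4 e4 e5
  -- `P4 ~ P2 (E2 E3)`
  have b1 : Hm al x u4 (mu u3 (mu u2 P2 E2) E3) P4 :=
    hm_trans hA (hm_mu hA f2 (hm_rfl hA e3)) f3
  have b2 : Hm al x u4 (mu u2 P2 (mu u3 E2 E3)) P4 :=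
    hm_trans hA (hm_symm hA (hm_assoc hB p2 e2 e3)) b1
  -- `P2 ~ P0 (E0 E1)`
  have c1 : Hm al x u2 (mu u1 (mu u0 P0 E0) E1) P2 :=
    hm_trans hA (hm_mu hA f0 (hm_rfl hA e1)) f1
  have c2 : Hm al x u2 (mu u0 P0 (mu u1 E0 E1)) P2 :=
    hm_trans hA (hm_symm hA (hm_assoc hB h0 e0 e1)) c1
  have e01 := mu_isP hA e0 e1
  have e23 := mu_isP hA e2 e3
  have e45 := mu_isP hA e4 e5
  have d1 : Hm al x u0 (mu u4 P4 (mu u5 E4 E5)) (mu u4 (mu u2 P2 (mu u3 E2 E3)) (mu u5 E4 E5)) :=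
    hm_mu hA (hm_symm hA b2) (hm_rfl hA e45)
  have d2 := hm_assoc hB p2 e23 e45
  have e25 := mu_isP hA e23 e45
  have d3 : Hm al x u0 (mu u2 P2 (mu u4 (mu u3 E2 E3) (mu u5 E4 E5)))
      (mu u2 (mu u0 P0 (mu u1 E0 E1)) (mu u4 (mu u3 E2 E3) (mu u5 E4 E5))) :=
    hm_mu hA (hm_symm hA c2) (hm_rfl hA e25)
  have d4 := hm_assoc hB h0 e01 e25
  have d5 : Hm al x u0 (mu u0 P0 (mu u2 (mu u1 E0 E1) (mu u4 (mu u3 E2 E3) (mu u5 E4 E5))))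
      (mu u0 P0 (fun _ => u0)) := hm_mu hA (hm_rfl hA h0) hr
  exact hm_trans hA a1 (hm_trans hA a2 (hm_trans hA d1 (hm_trans hA d2 (hm_trans hA d3
    (hm_trans hA d4 (hm_trans hA d5 (hm_unit_r hB h0)))))))

/-- Fact of a tetrahedral cell: the edge before the last one. -/
theorem tet_fact_pre (hA : StLWA) (hB : StLWB) {x u0 u1 u2 u3 u4 u5 : Fm n}
    {P0 P1 P2 P3 P4 P5 E0 E1 E2 E3 E4 E5 E5' : ℝ → Fm n}
    (h0 : IsP al x u0 P0) (e0 : IsP al u0 u1 E0) (e1 : IsP al u1 u2 E1) (e2 : IsP al u2 u3 E2)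
    (e3 : IsP al u3 u4 E3) (e4 : IsP al u4 u5 E4) (e5 : IsP al u5 u0 E5) (e5' : IsP al u0 u5 E5')
    (hr : Hm al u0 u0 (mu u2 (mu u1 E0 E1) (mu u4 (mu u3 E2 E3) (mu u5 E4 E5))) (fun _ => u0))
    (hi : Hm al u5 u5 (mu u0 E5 E5') (fun _ => u5))
    (f0 : Hm al x u1 (mu u0 P0 E0) P1) (f1 : Hm al x u2 (mu u1 P1 E1) P2)
    (f2 : Hm al x u3 (mu u2 P2 E2) P3) (f3 : Hm al x u4 (mu u3 P3 E3) P4)
    (f5 : Hm al x u5 (mu u0 P0 E5') P5) : Hm al x u5 (mu u4 P4 E4) P5 := by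
  have p4 := hm_r hA f3
  have p4e := mu_isP hA p4 e4
  -- the last edge, with `P4 E4` in the place of `P5`
  have h1 : Hm al x u0 (mu u5 (mu u4 P4 E4) E5) P0 :=
    tet_fact hA hB h0 e0 e1 e2 e3 e4 e5 hr f0 f1 f2 f3 (hm_rfl hA p4e)
  have h2 := hm_symm hA (hm_unit_r hB p4e)
  have h3 : Hm al x u5 (mu u5 (mu u4 P4 E4) (fun _ => u5)) (mu u5 (mu u4 P4 E4) (mu u0 E5 E5')) :=
    hm_mu hA (hm_rfl hA p4e) (hm_symm hA hi)
  have h4 := hm_symm hA (hm_assoc hB p4e e5 e5')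
  have h5 : Hm al x u5 (mu u0 (mu u5 (mu u4 P4 E4) E5) E5') (mu u0 P0 E5') :=
    hm_mu hA h1 (hm_rfl hA e5')
  exact hm_trans hA h2 (hm_trans hA h3 (hm_trans hA h4 (hm_trans hA h5 f5)))

/-- Two chains (four and three edges) with the same end point. -/
theorem chain43 (hA : StLWA) (hB : StLWB) {x u1 u2 u3 u4 w1 w2 : Fm n}
    {P0 P1 P2 P3 P4 Q1 Q2 G0 G1 G2 G3 K0 K1 K2 : ℝ → Fm n}
    (_p0 : IsP al x x P0) (i0 : IsP al x u1 G0) (i1 : IsP al u1 u2 G1) (i2 : IsP al u2 u3 G2)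
    (i3 : IsP al u3 u4 G3) (j0 : IsP al x w1 K0) (j1 : IsP al w1 w2 K1) (j2 : IsP al w2 u4 K2)
    (a0 : Hm al x u1 (mu x P0 G0) G0) (a1 : Hm al x u1 (mu x P0 G0) P1)
    (a2 : Hm al x u2 (mu u1 P1 G1) P2) (a3 : Hm al x u3 (mu u2 P2 G2) P3)
    (a4 : Hm al x u4 (mu u3 P3 G3) P4)
    (b0 : Hm al x w1 (mu x P0 K0) K0) (b1 : Hm al x w1 (mu x P0 K0) Q1)
    (b2 : Hm al x w2 (mu w1 Q1 K1) Q2) (b3 : Hm al x u4 (mu w2 Q2 K2) P4) :
    Hm al x u4 (mu u1 G0 (mu u2 G1 (mu u3 G2 G3))) (mu w1 K0 (mu w2 K1 K2)) := by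
  have g01 : Hm al x u1 G0 P1 := hm_trans hA (hm_symm hA a0) a1
  have k01 : Hm al x w1 K0 Q1 := hm_trans hA (hm_symm hA b0) b1
  -- left
  have l1 : Hm al x u2 (mu u1 G0 G1) P2 := hm_trans hA (hm_mu hA g01 (hm_rfl hA i1)) a2
  have l2 : Hm al x u3 (mu u2 (mu u1 G0 G1) G2) P3 := hm_trans hA (hm_mu hA l1 (hm_rfl hA i2)) a3
  have l3 : Hm al x u4 (mu u3 (mu u2 (mu u1 G0 G1) G2) G3) P4 :=
    hm_trans hA (hm_mu hA l2 (hm_rfl hA i3)) a4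
  have g23 := mu_isP hA i2 i3
  have m1 : Hm al x u4 (mu u3 (mu u2 (mu u1 G0 G1) G2) G3) (mu u2 (mu u1 G0 G1) (mu u3 G2 G3)) :=
    hm_assoc hB (mu_isP hA i0 i1) i2 i3
  have m2 : Hm al x u4 (mu u2 (mu u1 G0 G1) (mu u3 G2 G3)) (mu u1 G0 (mu u2 G1 (mu u3 G2 G3))) :=
    hm_assoc hB i0 i1 g23
  have left : Hm al x u4 (mu u1 G0 (mu u2 G1 (mu u3 G2 G3))) P4 :=
    hm_trans hA (hm_symm hA (hm_trans hA m1 m2)) l3
  -- right
  have r1 : Hm al x w2 (mu w1 K0 K1) Q2 := hm_trans hA (hm_mu hA k01 (hm_rfl hA j1)) b2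
  have r2 : Hm al x u4 (mu w2 (mu w1 K0 K1) K2) P4 := hm_trans hA (hm_mu hA r1 (hm_rfl hA j2)) b3
  have right : Hm al x u4 (mu w1 K0 (mu w2 K1 K2)) P4 :=
    hm_trans hA (hm_symm hA (hm_assoc hB j0 j1 j2)) r2
  exact hm_trans hA left (hm_symm hA right)

/-! ## Elementary paths with explicit targets -/

theorem adm_of {u : Fin n → Fin 4} {a b : Fin n} (h1 : a ≠ b) (h2 : ∀ c, al (u c) c = true)
    (h3 : al (u a) b = true) (h4 : al (u b) a = true) : Adm al u a b := ⟨h1, h2, h3, h4⟩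

theorem ep_isP (hE : StEPP) {u v : Fin n → Fin 4} {a b : Fin n} {e : ℝ} (hv : sw u a b = v)
    (h : Adm al u a b) (he : e * e = 1) : IsP al (pu u) (pu v) (ep u a b e) := by
  rw [← hv]
  exact (hE n al u a b e h he).1

/-- Inverse relation. -/
theorem ep_inv (hI : StINV) {u v : Fin n → Fin 4} {a b : Fin n} {e e' : ℝ} (hv : sw u a b = v)
    (h : Adm al u a b) (he : e * e = 1) (he' : e' = -e) :
    Hm al (pu u) (pu u) (mu (pu v) (ep u a b e) (ep v a b e')) (fun _ => pu u) := by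
  rw [he', ← hv]
  exact hI n al u a b e h he

/-- Square relation. -/
theorem ep_sq (hS : StSQR) {u u1 u2 u3 : Fin n → Fin 4} {a b c d : Fin n} {e f : ℝ}
    (h1 : sw u a b = u1) (h2 : sw u1 c d = u2) (h3 : sw u c d = u3)
    (ha : Adm al u a b) (hc : Adm al u c d) (n1 : c ≠ a) (n2 : c ≠ b) (n3 : d ≠ a) (n4 : d ≠ b)
    (he : e * e = 1) (hf : f * f = 1) :
    Hm al (pu u) (pu u2) (mu (pu u1) (ep u a b e) (ep u1 c d f))
      (mu (pu u3) (ep u c d f) (ep u3 a b e)) := by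
  have := (hS n al u a b c d e f ha hc n1 n2 n3 n4 he hf).2.1
  rw [h1, h2, h3] at this
  exact this

/-- Triangle relation, with arbitrary orientation of the pairs. -/
theorem ep_tri (hT : StEEE) {u u1 u2 : Fin n → Fin 4} {a b c : Fin n} {e f g : ℝ}
    (h1 : sw u a b = u1) (h2 : sw u a c = u2) (n1 : a ≠ b) (n2 : b ≠ c) (n3 : a ≠ c)
    (hbc : u b = u c) (hab : u a ≠ u b) (hs : ∀ x, al (u x) x = true) (k1 : al (u a) b = true)
    (k2 : al (u a) c = true) (k3 : al (u b) a = true) (he : e * e = 1) (hf : f * f = 1)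
    (hg : g = e * f) :
    Hm al (pu u) (pu u2) (mu (pu u1) (ep u a b e) (ep u1 b c f)) (ep u a c g) := by
  have := (hT n al u a b c e f n1 n2 n3 hbc hab hs k1 k2 k3 he hf).2
  rw [h1, h2, ← hg] at this
  exact this

/-- Reversed orientation of a pair. -/
theorem ep_flip (hE : StEPP) {u : Fin n → Fin 4} {a b : Fin n} {e e' : ℝ} (h : Adm al u a b)
    (he : e * e = 1) (he' : e' = -e) : ep u b a e = ep u a b e' := by
  rw [he']
  exact (hE n al u a b e h he).2.2.1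

end Pool.Agent.Helper71.UN
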