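import Pool.Agent.Helper71.UN.Defs
import Pool.Agent.Helper54.TRI.St3

/-!
# Project UN, part (D): vertex models

Families of matrices `M : Fin 4 → Matrix (Fin n) (Fin n) ℝ` (one matrix for each label), smooth paths of
such families, homotopies, the elementary paths, the cells, and the vertex model.  All modules are
independent: the statements needed are listed as hypotheses.  Names: module `XX` = theorem
`hXX (hypotheses) : StXX` in `Pool/Agent/<You>/UN/M_XX.lean`.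
-/

set_option autoImplicit false

open Set Filter Topology Matrix
open scoped ContDiff ComplexConjugate

noncomputable section

namespace Pool.Agent.Helper71.UN

open Pool.Agent.Helper54.TRI (Sx ez FF UU inv4 sU StFF)

/-- Families of matrices: one matrix for each label. -/
abbrev Fm (n : ℕ) : Type := Fin 4 → Matrix (Fin n) (Fin n) ℝ

/-- Admissible families: orthogonal projections with sum `1`; the projection with the label `l` lives on
the copies `a` with `al l a = true`. -/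
structure OKm {n : ℕ} (al : Fin 4 → Fin n → Bool) (M : Fm n) : Prop where
  symm : ∀ l, (M l)ᵀ = M l
  idem : ∀ l, M l * M l = M l
  sum : ∑ l, M l = 1
  loc : ∀ l a b, M l a b ≠ 0 → al l a = true ∧ al l b = true

/-- Smooth path from `x` to `y`, constant outside of `[0, 1]`. -/
structure IsP {n : ℕ} (al : Fin 4 → Fin n → Bool) (x y : Fm n) (γ : ℝ → Fm n) : Prop where
  smooth : ∀ l a b, ContDiff ℝ ∞ fun s => γ s l a b
  ok : ∀ s, OKm al (γ s)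
  left : ∀ s, s ≤ 0 → γ s = x
  right : ∀ s, 1 ≤ s → γ s = y

/-- Smooth homotopy of paths from `x` to `y` (first variable: path, second variable: homotopy). -/
def Hm {n : ℕ} (al : Fin 4 → Fin n → Bool) (x y : Fm n) (γ γ' : ℝ → Fm n) : Prop :=
  ∃ H : ℝ × ℝ → Fm n, (∀ l a b, ContDiff ℝ ∞ fun p => H p l a b) ∧ (∀ p, OKm al (H p)) ∧
    (∀ p : ℝ × ℝ, p.1 ≤ 0 → H p = x) ∧ (∀ p : ℝ × ℝ, 1 ≤ p.1 → H p = y) ∧
    (∀ p : ℝ × ℝ, p.2 ≤ 0 → H p = γ p.1) ∧ (∀ p : ℝ × ℝ, 1 ≤ p.2 → H p = γ' p.1)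

/-- Product of paths with the common point `y`. -/
def mu {n : ℕ} (y : Fm n) (γ δ : ℝ → Fm n) (s : ℝ) : Fm n :=
  fun l => γ (2 * s) l + δ (2 * s - 1) l - y l

/-- Reversed path. -/
def rv {n : ℕ} (γ : ℝ → Fm n) (s : ℝ) : Fm n := γ (1 - s)

/-- The pure family of a state `u` (the label of each copy). -/
def pu {n : ℕ} (u : Fin n → Fin 4) : Fm n := fun l => Matrix.diagonal fun a => if u a = l then 1 else 0

/-- Rotation of the coordinates `a`, `b` with the sign `e`. -/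
def rt {n : ℕ} (a b : Fin n) (e θ : ℝ) : Matrix (Fin n) (Fin n) ℝ := Matrix.of fun x y =>
  if x = a ∧ y = a then Real.cos θ else if x = b ∧ y = b then Real.cos θ
  else if x = b ∧ y = a then e * Real.sin θ else if x = a ∧ y = b then -(e * Real.sin θ)
  else if x = y then 1 else 0

/-- The family of a frame `Q` (column `c` has the label `u c`). -/
def fr {n : ℕ} (Q : Matrix (Fin n) (Fin n) ℝ) (u : Fin n → Fin 4) : Fm n :=
  fun l => Q * (Matrix.diagonal fun a => if u a = l then 1 else 0) * Qᵀ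

/-- The state after the exchange of the copies `a`, `b`. -/
def sw {n : ℕ} (u : Fin n → Fin 4) (a b : Fin n) : Fin n → Fin 4 := fun x => u (Equiv.swap a b x)

/-- Elementary path from `pu u` to `pu (sw u a b)`. -/
def ep {n : ℕ} (u : Fin n → Fin 4) (a b : Fin n) (e : ℝ) (s : ℝ) : Fm n :=
  fr (rt a b e (Real.pi / 2 * stp s)) u

/-- The exchange of the copies `a`, `b` is allowed in the state `u`. -/
structure Adm {n : ℕ} (al : Fin 4 → Fin n → Bool) (u : Fin n → Fin 4) (a b : Fin n) : Prop where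
  ne : a ≠ b
  self : ∀ c, al (u c) c = true
  ab : al (u a) b = true
  ba : al (u b) a = true

/-- **STP** (the steps; small).  `stp = Real.smoothTransition`.  PROOF.  `Real.smoothTransition.contDiff`, `.zero_of_nonpos`,
`.one_of_one_le`, `.nonneg`, `.le_one`; `smoothTransition t + smoothTransition (1 - t) = 1` as in `Pool/Agent/Helper54/TRI/M_PH.lean`. -/
def StSTP : Prop := ContDiff ℝ ∞ stp ∧ (∀ t, 0 ≤ stp t ∧ stp t ≤ 1) ∧ (∀ t, t ≤ 0 → stp t = 0) ∧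
  (∀ t, 1 ≤ t → stp t = 1) ∧ (∀ t, stp (1 - t) = 1 - stp t) ∧ ContDiff ℝ ∞ sg ∧
  (∀ h, 0 ≤ sg h ∧ sg h ≤ 1) ∧ (∀ h, h ≤ -1 → sg h = 0) ∧ (∀ h, 1 ≤ h → sg h = 1) ∧
  (∀ h, sg (-h) = 1 - sg h) ∧ ContDiff ℝ ∞ prof ∧ (∀ h, h ≤ -1 → prof h = 0) ∧
  (∀ h, 1 ≤ h → prof h = 1) ∧ ∀ h, prof (-h) = 1 - prof h

/-- **LWA** (laws, first part).  PROOF.  (1) `H p = γ p.1`.  (2) `H' (s, t) = H (s, 1 - t)`.  (3) With the homotopies `H`, `H'`:
`H'' (s, t) = H (s, 2 t) + H' (s, 2 t - 1) - H (s, 1)` (entrywise; smooth as a composition and sum).  For `t ≤ 1/2`: `2 t - 1 ≤ 0`, `H' (s, 2t-1) = γ' s = H (s, 1)`, so `H'' (s,t) = H (s, 2t)`;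
for `1/2 ≤ t`: `1 ≤ 2 t`, `H (s, 2t) = γ' s = H (s, 1)`, so `H'' (s,t) = H' (s, 2t-1)`.  All properties follow.  (4) `γ s = H (s, 0)`, `γ' s = H (s, 1)`.
(5) `mu y γ δ s = γ (2 s)` for `s ≤ 1/2` (`2 s - 1 ≤ 0`, `δ = y`) and `= δ (2 s - 1)` for `1/2 ≤ s` (`γ (2s) = y`); smooth as a sum.  (6) `H (2 s, t) + H' (2 s - 1, t) - y`, same two cases.  (7) direct. -/
def StLWA : Prop := ∀ (n : ℕ) (al : Fin 4 → Fin n → Bool) (x y z : Fm n) (γ γ' γ'' δ δ' : ℝ → Fm n),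
  (IsP al x y γ → Hm al x y γ γ) ∧
  (Hm al x y γ γ' → Hm al x y γ' γ) ∧
  (Hm al x y γ γ' → Hm al x y γ' γ'' → Hm al x y γ γ'') ∧
  (Hm al x y γ γ' → IsP al x y γ ∧ IsP al x y γ') ∧
  (IsP al x y γ → IsP al y z δ → IsP al x z (mu y γ δ) ∧
    (∀ s, s ≤ 1 / 2 → mu y γ δ s = γ (2 * s)) ∧ ∀ s, 1 / 2 ≤ s → mu y γ δ s = δ (2 * s - 1)) ∧
  (Hm al x y γ γ' → Hm al y z δ δ' → Hm al x z (mu y γ δ) (mu y γ' δ')) ∧
  (IsP al x y γ → IsP al y x (rv γ))

/-- **LWB** (laws, second part: associativity and units; hypothesis `hs : StSTP`).  PROOF.  `ψ = stp t ∈ [0,1]`.  (1) Associativity: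
`H (s, t) = γ ((4 - 2ψ) s) + δ (4 s - 1 - ψ) + ε ((2 + 2ψ) s - (1 + 2ψ)) - y - z`.  `t ≤ 0` (`ψ = 0`): the left product; `1 ≤ t` (`ψ = 1`): the right product (unfold `mu`, the arguments agree).
Admissibility: if `s ≤ (1+ψ)/4` then the arguments of `δ` and `ε` are `≤ 0` (`(2+2ψ)(1+ψ)/4 - 1 - 2ψ = (ψ² - 2ψ - 1)/2 ≤ 0`), the value is `γ (..)`;
if `(1+ψ)/4 ≤ s ≤ (2+ψ)/4` then the argument of `γ` is `≥ (4-2ψ)(1+ψ)/4 = 1 + ψ(1-ψ)/2 ≥ 1` and that of `ε` is `≤ (2+2ψ)(2+ψ)/4 - 1 - 2ψ = -ψ(1-ψ)/2 ≤ 0`, the value is `δ (..)`;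
if `(2+ψ)/4 ≤ s` then the arguments of `γ`, `δ` are `≥ 1`, the value is `ε (..)`.  Ends: `s ≤ 0`: `x`; `1 ≤ s`: arguments `≥ 1`: `w`.  (2) `H (s,t) = γ ((2-ψ) s - (1-ψ))`.  (3) `H (s,t) = γ ((2-ψ) s)`. -/
def StLWB : Prop := ∀ (n : ℕ) (al : Fin 4 → Fin n → Bool) (x y z w : Fm n) (γ δ ε : ℝ → Fm n),
  (IsP al x y γ → IsP al y z δ → IsP al z w ε →
    Hm al x w (mu z (mu y γ δ) ε) (mu y γ (mu z δ ε))) ∧
  (IsP al x y γ → Hm al x y (mu x (fun _ => x) γ) γ ∧ Hm al x y (mu y γ (fun _ => y)) γ)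

/-- **CVX** (convex models; hypothesis `hs : StSTP`).  PROOF.  `H (s, t) = m ((1 - stp t) • p s + stp t • q s)`; the argument is in `C` (convex), smooth in `(s, t)`; `ContDiffOn.comp_contDiff`. -/
def StCVX : Prop := ∀ (n : ℕ) (al : Fin 4 → Fin n → Bool) (d : ℕ) (C : Set (Fin d → ℝ))
  (m : (Fin d → ℝ) → Fm n), Convex ℝ C → (∀ l a b, ContDiffOn ℝ ∞ (fun z => m z l a b) C) →
  (∀ z ∈ C, OKm al (m z)) → ∀ (p q : ℝ → Fin d → ℝ) (z0 z1 : Fin d → ℝ),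
  ContDiff ℝ ∞ p → ContDiff ℝ ∞ q → (∀ s, p s ∈ C) → (∀ s, q s ∈ C) →
  (∀ s, s ≤ 0 → p s = z0) → (∀ s, 1 ≤ s → p s = z1) → (∀ s, s ≤ 0 → q s = z0) →
  (∀ s, 1 ≤ s → q s = z1) → Hm al (m z0) (m z1) (fun s => m (p s)) (fun s => m (q s))

/-- **FRO** (frames).  PROOF.  `Q * Qᵀ = 1` gives `Qᵀ * Q = 1`.  With `D l` the diagonal matrices: `D l * D l = D l`, `∑ l, D l = 1`, symmetric.  Entries by `Matrix.mul_apply`, `Matrix.diagonal`:
`fr Q u l x y = ∑ c, if u c = l then Q x c * Q y c else 0`; if it is not `0` some `c` has `u c = l`, `Q x c ≠ 0`, `Q y c ≠ 0`. -/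
def StFRO : Prop := ∀ (n : ℕ) (al : Fin 4 → Fin n → Bool) (Q : Matrix (Fin n) (Fin n) ℝ)
  (u : Fin n → Fin 4),
  (∀ l x y, fr Q u l x y = ∑ c, if u c = l then Q x c * Q y c else 0) ∧
  (Q * Qᵀ = 1 → (∀ x c, Q x c ≠ 0 → al (u c) x = true) → OKm al (fr Q u)) ∧
  fr (1 : Matrix (Fin n) (Fin n) ℝ) u = pu u

/-- **ROT** (rotations; hypothesis `hf : StFRO`).  PROOF.  Entries of matrices; `Finset.sum_eq_...` over the two indices `a`, `b`.  (1) `cos² + sin² = 1`.  (3): if `θ = π/2` then `Q * rt a b e (π/2)` has the column `a` equal to `e` times the column `b` of `Q`, the column `b` equal to `- e` times the column `a`,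
the other columns are those of `Q`; the sum of `StFRO` is unchanged after the exchange of `a`, `b` (`Equiv.sum_comp (Equiv.swap a b)`).  (4) from (3) and `rt a b e (π/2 - φ) = rt a b (-e) φ * rt a b e (π/2)` (angles add; `rt a b (-e) φ = rt a b e (-φ)`).
(5) is an entrywise identity.  (6) commuting rotations of disjoint pairs.  (7) entries of `fr (rt a b e θ) u` from `StFRO`. -/
def StROT : Prop := ∀ (n : ℕ) (u : Fin n → Fin 4) (a b : Fin n) (e : ℝ), a ≠ b → e * e = 1 →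
  (∀ θ, rt a b e θ * (rt a b e θ)ᵀ = 1) ∧ rt a b e 0 = 1 ∧
  (∀ Q : Matrix (Fin n) (Fin n) ℝ, fr (Q * rt a b e (Real.pi / 2)) u = fr Q (sw u a b)) ∧
  (∀ φ, fr (rt a b e (Real.pi / 2 - φ)) u = fr (rt a b (-e) φ) (sw u a b)) ∧
  (∀ θ, rt b a e θ = rt a b (-e) θ) ∧
  (∀ (c d : Fin n) (f θ φ : ℝ), c ≠ a → c ≠ b → d ≠ a → d ≠ b → c ≠ d →
    rt a b e θ * rt c d f φ = rt c d f φ * rt a b e θ) ∧
  (∀ (θ : ℝ) (l : Fin 4),
    fr (rt a b e θ) u l a a = (if u a = l then Real.cos θ ^ 2 else 0) + (if u b = l then Real.sin θ ^ 2 else 0) ∧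
    fr (rt a b e θ) u l b b = (if u a = l then Real.sin θ ^ 2 else 0) + (if u b = l then Real.cos θ ^ 2 else 0) ∧
    fr (rt a b e θ) u l a b = (if u a = l then e * (Real.cos θ * Real.sin θ) else 0) -
      (if u b = l then e * (Real.cos θ * Real.sin θ) else 0) ∧
    fr (rt a b e θ) u l b a = (if u a = l then e * (Real.cos θ * Real.sin θ) else 0) -
      (if u b = l then e * (Real.cos θ * Real.sin θ) else 0) ∧
    ∀ x y, x ≠ a → x ≠ b → fr (rt a b e θ) u l x y = (if x = y ∧ u x = l then 1 else 0) ∧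
      fr (rt a b e θ) u l y x = (if x = y ∧ u x = l then 1 else 0))

/-- **EPP** (elementary paths; hypotheses `hs : StSTP`, `hf : StFRO`, `hr : StROT`).  PROOF.  Smooth: entries of a product of matrices with smooth entries.  `OKm` by `StFRO` (2): `rt a b e θ x c ≠ 0` implies `x = c`, or `{x, c} = {a, b}`: use `Adm`.  Ends: `stp = 0` (`rt a b e 0 = 1`), `stp = 1` (`StROT` (3) with `Q = 1`).
`rv`: `stp (1 - s) = 1 - stp s` and `StROT` (4).  `Adm` of `sw u a b` is clear. -/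
def StEPP : Prop := ∀ (n : ℕ) (al : Fin 4 → Fin n → Bool) (u : Fin n → Fin 4) (a b : Fin n) (e : ℝ),
  Adm al u a b → e * e = 1 →
  IsP al (pu u) (pu (sw u a b)) (ep u a b e) ∧ rv (ep u a b e) = ep (sw u a b) a b (-e) ∧
  ep u b a e = ep u a b (-e) ∧ Adm al (sw u a b) a b ∧ OKm al (pu u)

/-- **INV** (inverse; hypotheses `StSTP StCVX StFRO StROT StEPP`).  PROOF.  `StCVX` with `d = 1`, `C = univ`, `m z = fr (rt a b e (π/2 * z 0)) u` (smooth, `OKm` as in `EPP`), `p s = stp (2 s) - stp (2 s - 1)`, `q = 0`.  `m (p s) = mu ..`: for `s ≤ 1/2` it is `ep u a b e (2 s)`;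
for `1/2 ≤ s`: `stp (2 s) = 1`, `fr (rt a b e (π/2 - π/2 * stp (2 s - 1))) u = ep (sw u a b) a b (-e) (2 s - 1)` by `StROT` (4). -/
def StINV : Prop := ∀ (n : ℕ) (al : Fin 4 → Fin n → Bool) (u : Fin n → Fin 4) (a b : Fin n) (e : ℝ),
  Adm al u a b → e * e = 1 →
  Hm al (pu u) (pu u) (mu (pu (sw u a b)) (ep u a b e) (ep (sw u a b) a b (-e))) (fun _ => pu u)

/-- **SQR** (squares; hypotheses `StSTP StLWA StCVX StFRO StROT StEPP`).  PROOF.  `StCVX` with `d = 2`, `C = univ`, `m z = fr (rt a b e (π/2 * z 0) * rt c d f (π/2 * z 1)) u`; the product of the two rotations is orthogonal, its entry `(x, y)` is not `0` only if `x = y` or `{x,y} = {a,b}` or `{x,y} = {c,d}`.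
Paths: `(stp (2s), stp (2s-1))` gives `mu (pu (sw u a b)) (ep u a b e) (ep (sw u a b) c d f)`: for `s ≤ 1/2` the second angle is `0`; for `1/2 ≤ s` the first is `π/2` and `fr (rt a b e (π/2) * Q) u = fr (Q * rt a b e (π/2)) u = fr Q (sw u a b)` (`StROT` (6), (3)).
`(stp (2s-1), stp (2s))` gives the other product (start from the other order, `StROT` (6)), and `(stp s, stp s)` the diagonal path.  (`mu` is evaluated by `StLWA` (5).) -/
def StSQR : Prop := ∀ (n : ℕ) (al : Fin 4 → Fin n → Bool) (u : Fin n → Fin 4) (a b c d : Fin n)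
  (e f : ℝ), Adm al u a b → Adm al u c d → c ≠ a → c ≠ b → d ≠ a → d ≠ b → e * e = 1 → f * f = 1 →
  sw (sw u a b) c d = sw (sw u c d) a b ∧
  Hm al (pu u) (pu (sw (sw u a b) c d))
    (mu (pu (sw u a b)) (ep u a b e) (ep (sw u a b) c d f))
    (mu (pu (sw u c d)) (ep u c d f) (ep (sw u c d) a b e)) ∧
  Hm al (pu u) (pu (sw (sw u a b) c d))
    (mu (pu (sw u a b)) (ep u a b e) (ep (sw u a b) c d f))
    (fun s => fr (rt a b e (Real.pi / 2 * stp s) * rt c d f (Real.pi / 2 * stp s)) u)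

/-- **EEE** (triangles; hypotheses `StFF` (`Pool.Agent.Helper54.TRI.m_FF`), `StSTP StLWA StCVX StFRO StROT StEPP`).  Three copies `a b c`, the label `u a` on `a`, the label `u b = u c ≠ u a` on `b`, `c`.  PROOF.  `StCVX` with `d = 3`, `C = Sx` (convex), and with the vector
`v a = FF z 0`, `v b = e * FF z 1`, `v c = e * f * FF z 2`, `v x = 0` otherwise, `∑ v² = 1` (`StFF`): `m z l x y = v x * v y + [x = y ∉ {a,b,c}, u x = l]` for `l = u a`; `m z l x y = [x = y ∈ {a,b,c}] - v x * v y + [x = y ∉ {a,b,c}, u x = l]` for `l = u b`;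
`[x = y, u x = l]` for the other labels.  Symmetric, idempotent (`v vᵀ` is a projection), sum `1`.  Path `p s = (1 - stp (2s), stp (2s) - stp (2s-1), stp (2s-1))`, `q s = (1 - stp s, 0, stp s)`.
Values: `z = ez 0 t`: `FF = (cos, sin, 0)` (`θ = π/2 t`), `m z = fr (rt a b e θ) u` (entries of `StROT` (7)); `z = ez 1 t`: `FF = (0, cos, sin)`, `m z = fr (rt b c f θ) (sw u a b)` (`e² = 1`); `z = ez 2 (1 - t) = (1-t, 0, t)`: `m z = fr (rt a c (e f) θ) u`. -/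
def StEEE : Prop := ∀ (n : ℕ) (al : Fin 4 → Fin n → Bool) (u : Fin n → Fin 4) (a b c : Fin n)
  (e f : ℝ), a ≠ b → b ≠ c → a ≠ c → u b = u c → u a ≠ u b → (∀ x, al (u x) x = true) →
  al (u a) b = true → al (u a) c = true → al (u b) a = true → e * e = 1 → f * f = 1 →
  sw (sw u a b) b c = sw u a c ∧
  Hm al (pu u) (pu (sw u a c)) (mu (pu (sw u a b)) (ep u a b e) (ep (sw u a b) b c f))
    (ep u a c (e * f))

/-- **TTA** (tetrahedral cell, three double exchanges; hypotheses `StFF`, `StSTP StLWA StCVX StFRO StROT StEPP`).  `w i` the four copies, `L` the four labels, `ς i` signs; `u (w i) = L (inv4 0 i)`.  PROOF.  `StCVX` with `d = 3`, `C = Sx`,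
`m z (L j) x y = ∑ i i', if x = w i ∧ y = w i' then (ς i * UU (FF z) j i) * (ς i' * UU (FF z) j i') else 0, plus [x = y ∉ range w, u x = L j]` (`L` is a bijection of `Fin 4`).  For `∑ FF² = 1` the rows `UU _ j` are orthonormal (see `KT`, `Pool/Agent/Helper54/TRI/M_KT.lean`), so the `m z (L j)` are orthogonal projections with sum `1`;
`UU _ j j = 0` gives `loc`.  Values (check the entries; `u0 = FF z 0` etc.): `m (ez 0 t) = fr (rt (w 2) (w 0) (ς 2 * ς 0) θ * rt (w 1) (w 3) (ς 1 * ς 3) θ) u`, `m (ez 1 t) = fr (rt (w 3) (w 2) (ς 3 * ς 2) θ * rt (w 1) (w 0) (ς 1 * ς 0) θ) u₂`,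
`m (ez 2 t) = fr (rt (w 2) (w 1) (ς 2 * ς 1) θ * rt (w 3) (w 0) (ς 3 * ς 0) θ) u₄`, `θ = π/2 t`.  The path `p s` runs through the three sides (`(1 - stp (2s) + stp (4s-3), stp (2s) - stp (4s-2), stp (4s-2) - stp (4s-3))`), `q s = (1, 0, 0)`; `m (p s)` is the product `mu _ D₀ (mu _ D₂ D₄)`. -/
def StTTA : Prop := ∀ (n : ℕ) (al : Fin 4 → Fin n → Bool) (u : Fin n → Fin 4) (w : Fin 4 → Fin n)
  (L : Fin 4 → Fin 4) (ς : Fin 4 → ℝ), Function.Injective w → Function.Injective L →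
  (∀ i, u (w i) = L (inv4 0 i)) → (∀ x, al (u x) x = true) →
  (∀ i j, j ≠ i → al (L j) (w i) = true) → (∀ i, ς i * ς i = 1) →
  ∀ (u₂ u₄ : Fin n → Fin 4), u₂ = sw (sw u (w 2) (w 0)) (w 1) (w 3) →
    u₄ = sw (sw u₂ (w 3) (w 2)) (w 1) (w 0) →
  sw (sw u₄ (w 2) (w 1)) (w 3) (w 0) = u ∧
  Hm al (pu u) (pu u)
    (mu (pu u₂)
      (fun s => fr (rt (w 2) (w 0) (ς 2 * ς 0) (Real.pi / 2 * stp s) *
        rt (w 1) (w 3) (ς 1 * ς 3) (Real.pi / 2 * stp s)) u)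
      (mu (pu u₄)
        (fun s => fr (rt (w 3) (w 2) (ς 3 * ς 2) (Real.pi / 2 * stp s) *
          rt (w 1) (w 0) (ς 1 * ς 0) (Real.pi / 2 * stp s)) u₂)
        (fun s => fr (rt (w 2) (w 1) (ς 2 * ς 1) (Real.pi / 2 * stp s) *
          rt (w 3) (w 0) (ς 3 * ς 0) (Real.pi / 2 * stp s)) u₄)))
    (fun _ => pu u)

/-- **TTT** (tetrahedral cell; hypotheses `StLWA StEPP StSQR StTTA`).  PROOF.  Replace the three double exchanges in `StTTA` by products of two elementary paths (`StSQR`, third item, congruence `StLWA` (6), (2), (3)). -/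
def StTTT : Prop := ∀ (n : ℕ) (al : Fin 4 → Fin n → Bool) (u : Fin n → Fin 4) (w : Fin 4 → Fin n)
  (L : Fin 4 → Fin 4) (ς : Fin 4 → ℝ), Function.Injective w → Function.Injective L →
  (∀ i, u (w i) = L (inv4 0 i)) → (∀ x, al (u x) x = true) →
  (∀ i j, j ≠ i → al (L j) (w i) = true) → (∀ i, ς i * ς i = 1) →
  ∀ (u₁ u₂ u₃ u₄ u₅ : Fin n → Fin 4), u₁ = sw u (w 2) (w 0) → u₂ = sw u₁ (w 1) (w 3) →
    u₃ = sw u₂ (w 3) (w 2) → u₄ = sw u₃ (w 1) (w 0) → u₅ = sw u₄ (w 2) (w 1) →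
  sw u₅ (w 3) (w 0) = u ∧
  Hm al (pu u) (pu u)
    (mu (pu u₂) (mu (pu u₁) (ep u (w 2) (w 0) (ς 2 * ς 0)) (ep u₁ (w 1) (w 3) (ς 1 * ς 3)))
      (mu (pu u₄) (mu (pu u₃) (ep u₂ (w 3) (w 2) (ς 3 * ς 2)) (ep u₃ (w 1) (w 0) (ς 1 * ς 0)))
        (mu (pu u₅) (ep u₄ (w 2) (w 1) (ς 2 * ς 1)) (ep u₅ (w 3) (w 0) (ς 3 * ς 0)))))
    (fun _ => pu u)

/-- The elementary path of the ray `j` of the hexagon network. -/
def g6 (j : Fin 7) : ℝ → Fm 6 := ep (st6 j) (ra6 j) (rb6 j) (e6 j)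

/-- **DER** (filling of the vertex loop; hypotheses `StLWA StLWB StEPP StINV StSQR StEEE StTTT`; owner helper71).  The path through the rays `0, 1, 2, 3` is homotopic to the path through the rays `6, 5, 4` in the opposite direction. -/
def StDER : Prop := Hm al6 (pu (st6 0)) (pu (st6 4))
  (mu (pu (st6 1)) (g6 0) (mu (pu (st6 2)) (g6 1) (mu (pu (st6 3)) (g6 2) (g6 3))))
  (mu (pu (st6 6)) (rv (g6 6)) (mu (pu (st6 5)) (rv (g6 5)) (rv (g6 4))))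

/-- Product of the paths `g i, ..., g (i + m - 1)` with the points `x i, ..., x (i + m)`. -/
def prP {n : ℕ} (g : ℕ → ℝ → Fm n) (x : ℕ → Fm n) : ℕ → ℕ → ℝ → Fm n
  | i, 0 => fun _ => x i
  | i, 1 => g i
  | i, (m + 2) => mu (x (i + 1)) (g i) (prP g x (i + 1) (m + 1))

/-- The parameter of the product. -/
def paR (σ : ℕ → ℝ) : ℕ → ℕ → ℝ
  | _, 0 => 0
  | i, 1 => σ i
  | i, (m + 2) => σ i / 2 + paR σ (i + 1) (m + 1) / 2

/-- **PRP** (values of products; hypothesis `StLWA`).  PROOF.  Induction on `m` with the two cases of `StLWA` (5): in the product `mu (x (i+1)) (g i) P` at `s = σ i / 2 + paR σ (i+1) (m+1) / 2`: if all later `σ` are `0` then `paR σ (i+1) (m+1) = 0`, `s ≤ 1/2` and the value is `g i (σ i)`;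
if `σ i = 1` then `2 s - 1 = paR σ (i+1) (m+1) ≥ 0`, `1/2 ≤ s` and the value is `P (paR ..)`.  `j` is the position: `σ = 1` before `j`, `σ = 0` after `j`.  (2): all `1`: `paR = 1`; all `0`: `paR = 0`. -/
def StPRP : Prop := ∀ (n : ℕ) (al : Fin 4 → Fin n → Bool) (g : ℕ → ℝ → Fm n) (x : ℕ → Fm n)
  (i m : ℕ), 0 < m → (∀ j, i ≤ j → j < i + m → IsP al (x j) (x (j + 1)) (g j)) →
  IsP al (x i) (x (i + m)) (prP g x i m) ∧
  ∀ σ : ℕ → ℝ, (∀ j, 0 ≤ σ j ∧ σ j ≤ 1) →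
    (∀ j, i ≤ j → j < i + m → (∀ j', i ≤ j' → j' < j → σ j' = 1) →
      (∀ j', j < j' → j' < i + m → σ j' = 0) → prP g x i m (paR σ i m) = g j (σ j)) ∧
    ((∀ j, i ≤ j → j < i + m → σ j = 1) → paR σ i m = 1) ∧
    ((∀ j, i ≤ j → j < i + m → σ j = 0) → paR σ i m = 0)

/-- Directions in the open half plane of `e`, in counterclockwise order. -/
structure DirA (e : ℂ) (d : ℕ → ℂ) (m : ℕ) : Prop where
  re : ∀ i, i < m → 0 < (d i * conj e).re
  ord : ∀ i, i + 1 < m → 0 < dt (d i) (d (i + 1))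

/-- Directions in the opposite half plane, in clockwise order. -/
structure DirB (e : ℂ) (d : ℕ → ℂ) (m : ℕ) : Prop where
  re : ∀ i, i < m → (d i * conj e).re < 0
  ord : ∀ i, i + 1 < m → 0 < dt (d (i + 1)) (d i)

/-- **VG** (plane geometry of the rays at a vertex).  PROOF.  Coordinates `x = (z * conj e).re / ‖e‖`, `y = (z * conj e).im / ‖e‖`, `x² + y² = ‖z‖²`; for a ray `p = (d * conj e).re / (‖d‖ ‖e‖)`, `q = (d * conj e).im / (‖d‖ ‖e‖)`, `p² + q² = 1`, `hh d z = y p - x q`, `tt d z = x p + y q`, `tt² + hh² = ‖z‖²`.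
For the first family `p > 0` and the slopes `q/p` increase strictly (`dt (d i) (d (i+1)) > 0`, transitivity in the half plane).  Let `c > 0` be a lower bound of all `|p|` and of all differences of slopes; `R₀` is large in terms of `c` (e.g. `R₀ = 10 / c ^ 3` with `c ≤ 1`, or: eventually for `‖z‖ → ∞`, each of the
finitely many claims separately).  (A1) `tt ≥ ‖z‖ - 1` and `x = tt p - hh q ≥ (‖z‖ - 1) c - 1`, which is large; for another ray `i'`: `hh' / p' = y - x q'/p' = hh / p + x (q/p - q'/p')`, of the sign of `q/p - q'/p'` and large.  (A2) `-1 ≤ x` and in no tube: a ray with `|hh| ≤ 1` would have `tt ≤ 0`, so `tt ≤ -(‖z‖ - 1)`, `x = tt p - hh q < -1`: so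
`|hh| > 1` for all rays; if `hh > 1` for the ray `i` and `i' < i` then `hh'/p' = hh/p + x (q/p - q'/p')`, which is positive if `x ≥ 0`, and if `-1 ≤ x ≤ 0` use (C); so `j` exists.  (C) `|x| ≤ 1`, so `|y| ≥ ‖z‖ - 1`; `hh = y p - x q` has the sign of `y p` and is large.  The second family: apply the first part to `-z` and `- d`, reversed order
(`hh (-d) (-z) = hh d z`, `tt (-d) (-z) = tt d z`), or repeat. -/
def StVG : Prop := ∀ (e : ℂ) (dA dB : ℕ → ℂ) (mA mB : ℕ), e ≠ 0 → DirA e dA mA → DirB e dB mB →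
  ∃ R₀ : ℝ, 0 < R₀ ∧ ∀ z : ℂ, R₀ ≤ ‖z‖ →
    (∀ i, i < mA → 0 < tt (dA i) z → |hh (dA i) z| ≤ 1 → ‖e‖ ≤ (z * conj e).re ∧
      (∀ i', i' < i → 1 ≤ hh (dA i') z) ∧ ∀ i', i < i' → i' < mA → hh (dA i') z ≤ -1) ∧
    (∀ i, i < mB → 0 < tt (dB i) z → |hh (dB i) z| ≤ 1 → (z * conj e).re ≤ - ‖e‖ ∧
      (∀ i', i' < i → hh (dB i') z ≤ -1) ∧ ∀ i', i < i' → i' < mB → 1 ≤ hh (dB i') z) ∧
    (- ‖e‖ ≤ (z * conj e).re → (∀ i, i < mA → ¬ (0 < tt (dA i) z ∧ |hh (dA i) z| ≤ 1)) →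
      ∃ j, j ≤ mA ∧ (∀ i, i < j → 1 ≤ hh (dA i) z) ∧ ∀ i, j ≤ i → i < mA → hh (dA i) z ≤ -1) ∧
    ((z * conj e).re ≤ ‖e‖ → (∀ i, i < mB → ¬ (0 < tt (dB i) z ∧ |hh (dB i) z| ≤ 1)) →
      ∃ j, j ≤ mB ∧ (∀ i, i < j → hh (dB i) z ≤ -1) ∧ ∀ i, j ≤ i → i < mB → 1 ≤ hh (dB i) z) ∧
    (|(z * conj e).re| ≤ ‖e‖ →
      ((∀ i, i < mA → 1 ≤ hh (dA i) z) ∧ ∀ i, i < mB → hh (dB i) z ≤ -1) ∨
      ((∀ i, i < mA → hh (dA i) z ≤ -1) ∧ ∀ i, i < mB → 1 ≤ hh (dB i) z))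

/-- **VM** (the vertex model; hypotheses `StSTP StLWA StPRP StVG`).  PROOF.  `R₀` from `StVG`, `H` the homotopy.  `T z = sg (- (z * conj e).re / ‖e‖)`, `sA z = paR (fun i => sg (hh (dA i) z)) 0 mA`, `sB z = paR (fun i => sg (- hh (dB i) z)) 0 mB`, `s z = (1 - T z) * sA z + T z * sB z`, `M z = H (s z, T z)`: smooth (`hh` is real linear in `z`).
Let `R₀ ≤ ‖z‖`.  (A) in the tube of `dA i`: `T z = 0`, so `M z = prP gA xA 0 mA (sA z)`, `sg = 1` before `i` and `0` after `i`: `= gA i (sg (hh (dA i) z))` by `StPRP`.  `fstA` skips the indices `i' < i` (`hh > 0`) and stops at `i` (`hh ≤ 0`) or at `i + 1` (`hh (dA (i+1)) z ≤ -1`, or the end).  (B) similar with `T z = 1`.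
(C) in no tube: if `‖e‖ ≤ re`: `T = 0`, `j` from `StVG`; the value is `gA j 0 = xA j` if `j < mA` (`StPRP` at the position `j`, `sg = 0` there), and for `j = mA`: `paR = 1`, `prP .. 1 = xA mA`; `fstA = j`.  If `re ≤ -‖e‖`: the same for `B`.  If `|re| < ‖e‖`: by the last item of `StVG` all `sg` are `1` (then `sA = sB = 1`, `s z = 1`, `M z = xA mA = xB mB`, `fstA = mA`, `fstB = mB`)
or all are `0` (then `s z = 0`, `M z = xA 0 = xB 0`, `fstA = 0`, `fstB = 0`). -/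
def StVM : Prop := ∀ (n : ℕ) (al : Fin 4 → Fin n → Bool) (e : ℂ) (dA dB : ℕ → ℂ) (mA mB : ℕ)
  (gA gB : ℕ → ℝ → Fm n) (xA xB : ℕ → Fm n), e ≠ 0 → 0 < mA → 0 < mB →
  DirA e dA mA → DirB e dB mB →
  (∀ i, i < mA → IsP al (xA i) (xA (i + 1)) (gA i)) →
  (∀ i, i < mB → IsP al (xB i) (xB (i + 1)) (gB i)) → xA 0 = xB 0 → xA mA = xB mB →
  Hm al (xA 0) (xA mA) (prP gA xA 0 mA) (prP gB xB 0 mB) →
  ∃ (M : ℂ → Fm n) (R₀ : ℝ), 0 < R₀ ∧ (∀ l a b, ContDiff ℝ ∞ fun z => M z l a b) ∧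
    (∀ z, OKm al (M z)) ∧ ∀ z : ℂ, R₀ ≤ ‖z‖ →
    (∀ i, i < mA → 0 < tt (dA i) z → |hh (dA i) z| ≤ 1 → M z = gA i (sg (hh (dA i) z)) ∧
      0 < (z * conj e).re ∧ (fstA dA 0 mA z = i ∨ fstA dA 0 mA z = i + 1)) ∧
    (∀ i, i < mB → 0 < tt (dB i) z → |hh (dB i) z| ≤ 1 → M z = gB i (sg (- hh (dB i) z)) ∧
      (z * conj e).re < 0 ∧ (fstB dB 0 mB z = i ∨ fstB dB 0 mB z = i + 1)) ∧
    ((∀ i, i < mA → ¬ (0 < tt (dA i) z ∧ |hh (dA i) z| ≤ 1)) →
      (∀ i, i < mB → ¬ (0 < tt (dB i) z ∧ |hh (dB i) z| ≤ 1)) →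
      M z = if 0 < (z * conj e).re then xA (fstA dA 0 mA z) else xB (fstB dB 0 mB z))

/-- **DIR** (directions of the hexagon network).  PROOF.  Put `E = a - v₂`, `d = a' - a`, `G = a - v₀` (`v₂ = om v₀`, `v₁ = v₀ + v₂`).  `d6 = ![a - τ, E, a' - v₂, a' - τ, a' - v₀, G, - v₁]`; `a' - v₂ = E + d`, `a' - v₀ = G + d`, and with `hτ`: `a - τ = (1-s) E - s θ d`, `a' - τ = (1-s) E + (1 - s θ) d`.
Orders: `dt (a-τ) E = s θ dt E d`, `dt E (E+d) = dt E d`, `dt (E+d) (a'-τ) = s (1-θ) dt E d`, all positive (`h1`); `dt G (-v₁)`: near `dt v₂ (-v₁) = (√3/2) ‖v₀‖²`; `dt (G+d) G = dt d G > 0` (`h2`).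
Signs of the real parts (`n = ‖v₀‖`): `E = v₀ + (a - v₁)`, so `|re (E conj v₀) - n²| ≤ n²/100`, `‖d‖ ≤ n/50`; `(om).re = -1/2`: `re (G conj v₀) = - n²/2 ± n²/100`, `re (- v₁ conj v₀) = - n²/2`.  (`v₁ - v₂ = v₀`, `v₁ - v₀ = v₂`.) -/
def StDIR : Prop := ∀ (Γ : ℤ → ℂ → Prop) (η : ℝ) (k l : ℤ) (v₀ a a' τ h : ℂ) (s θ : ℝ),
  η ≤ 1 / 100 → Cfg Γ η k l v₀ a a' τ s θ →
  DirA v₀ (dA6 v₀ a a' τ h) 4 ∧ DirB v₀ (dB6 v₀ a a' τ h) 3

/-- **GAM** (differences of the copies).  PROOF.  The pairs of copies allowed for a label: label `0`: `L, K, I` (`g1`, `g3`, `g5`); label `1`: `L, K, O, H` (`g2`, `g7`, `g9`, `h + a' = σ (v₀ + a')`); label `k`: `L, I, O, H, T` (`g4`, `g8`, `g11`); label `l`: `K, I, O, T` (`g6`, `g10`, `g12`); the other differences are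
sums, negatives (`x = -1`) and rational multiples of these; `Γ _ 0` with `x = 0`.  `fin_cases` on the label and the two copies. -/
def StGAM : Prop := ∀ (Γ : ℤ → ℂ → Prop) (η : ℝ) (k l : ℤ) (v₀ a a' τ : ℂ) (s θ : ℝ) (σ : ℚ),
  Cfg Γ η k l v₀ a a' τ s θ → (∀ l u u', Γ l u → Γ l u' → Γ l (u + u')) →
  (∀ l u (x : ℚ), Γ l u → Γ l ((x : ℂ) * u)) →
  ∀ (i : Fin 4) (b c : Fin 6), al6 i b = true → al6 i c = true →
    Γ (lb k l i) (pos6 v₀ a a' τ (-a' + (σ : ℂ) * (v₀ + a')) c -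
      pos6 v₀ a a' τ (-a' + (σ : ℂ) * (v₀ + a')) b)

/-- **VXA** (the vertex model of the hexagon network, labels in `Fin 4`; hypotheses `StSTP StFRO StROT StEPP StDER StVM StDIR`).  PROOF.  `StVM` with `n = 6`, `al6`, `e = v₀`, `mA = 4`, `mB = 3`, `gA i = g6 (Fin.ofNat 7 i)`, `xA i = pu (sA6 i)`, `gB i = rv (g6 (Fin.ofNat 7 (6 - i)))`, `xB i = pu (sB6 i)`
(`sw (st6 j) (ra6 j) (rb6 j) = st6 (j + 1)`, `Adm al6 (st6 j) (ra6 j) (rb6 j)`: `decide`, `fin_cases`; `e6 j * e6 j = 1`), the homotopy is `StDER` (`prP` unfolds to it).  In the tube of the ray `j`: `M z = ep (st6 j) (ra6 j) (rb6 j) (e6 j) (sg (hh (d6 j) z)) = fr (rt .. (π/2 * prof (hh (d6 j) z))) (st6 j)`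
(for the second family `rv` and `sg (-h) = 1 - sg h`), entries by `StROT` (7).  Item (2): copy `c`, `z` in no tube of a ray with `c ∈ {ra6 j, rb6 j}`: either `z` is in no tube at all: third item of `StVM`; or it is in the tube of a ray `j` with `c ∉ {ra6 j, rb6 j}`: the row is `[b = c, st6 j c = l]` (`StROT` (7)) and
`stz6 .. z` is `st6 j` or `st6 (j+1)` (`fstA`, `fstB` in `StVM`), which agree at `c`. -/
def StVXA : Prop := ∀ (Γ : ℤ → ℂ → Prop) (η : ℝ) (k l : ℤ) (v₀ a a' τ h : ℂ) (s θ : ℝ),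
  η ≤ 1 / 100 → Cfg Γ η k l v₀ a a' τ s θ →
  ∃ (M : ℂ → Fm 6) (R₀ : ℝ), 0 < R₀ ∧ (∀ l a b, ContDiff ℝ ∞ fun z => M z l a b) ∧
    (∀ z, OKm al6 (M z)) ∧ ∀ z : ℂ, R₀ ≤ ‖z‖ →
    (∀ j : Fin 7, 0 < tt (d6 v₀ a a' τ h j) z → |hh (d6 v₀ a a' τ h j) z| ≤ 1 →
      M z = fr (rt (ra6 j) (rb6 j) (e6 j) (Real.pi / 2 * prof (hh (d6 v₀ a a' τ h j) z))) (st6 j)) ∧
    (∀ c : Fin 6, (∀ j : Fin 7, (ra6 j = c ∨ rb6 j = c) →
        ¬ (0 < tt (d6 v₀ a a' τ h j) z ∧ |hh (d6 v₀ a a' τ h j) z| ≤ 1)) →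
      ∀ (i : Fin 4) (b : Fin 6), M z i c b = if i = stz6 v₀ a a' τ h z c ∧ b = c then 1 else 0)

/-- **VXB** (both classes; hypotheses `StFRO StROT StGAM StVXA`): `StVXH`.  PROOF.  `h = -a' + σ (v₀ + a')`.  `M' z m = ∑ i : Fin 4, if lb k l i = m then M z i else 0` (`lb k l` is injective by `Cfg`, so `M' z (lb k l i) = M z i`, `M' z m = 0` for `m ∉ {0,1,k,l}`), for the class `true`: `M'`, for the class `false`: `z ↦ M' (-z)`.
`loc` by `StGAM` (class `false`: negatives).  `ray` for the class `true`: `lq = lb (st6 j (ra6 j))`, `lp = lb (st6 (j+1) (ra6 j)) = lb (st6 j (rb6 j))`, these two labels are different; entries of `StROT` (7) compared with `wm`.  For the class `false`: `hh (-d) z = hh d (-z)`, `tt (-d) z = tt d (-z)`, the copies are exchanged and `lp`, `lq` are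
exchanged, the sign is `- e6`: `wm lq lp (-e) θ l x y = wm lp lq e θ l (!x) (!y)`.  `pure`: item (2) of `StVXA` (`lb` injective). -/
def StVXB : Prop := StVXH

/-- **HOM** (the labels `nu` are homogeneous; small).  PROOF.  For `0 < r`: `hh d (r z) = r * hh d z`, so `fstA`, `fstB` (recursion on the number of rays) do not change, and `(r z * conj v₀).re = r * (z * conj v₀).re`; unfold `hexN`, `stz6`; cases on the class. -/
def StHOM : Prop := ∀ (k l : ℤ) (v₀ a a' τ h : ℂ) (lam : ℂ → ℤ) (c : Bool) (i : Fin 6) (z : ℂ)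
  (r : ℝ), 0 < r →
  (hexN k l v₀ a a' τ h lam).nu c i ((r : ℂ) * z) = (hexN k l v₀ a a' τ h lam).nu c i z

end Pool.Agent.Helper71.UN
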